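import Pool.Agent.Lib.MP_fe131b_co.F4.Eng3

/-!
Six points: the single-vertex property for four labels.
-/

set_option autoImplicit false

namespace Pool.Agent.Lib.MP_fe131b_co.F4

open Finset Function

def pms6 : List ℕ := [4530945, 3298305, 2311425, 4526130, 3231810, 1261650, 4522275, 2164035, 1180755, 3166500, 2102580, 1057620, 213285, 136245, 74565]
def CT6 : ℕ := 0x12345021435034125102354201534305124120453210543450123134052315042451032234501325401452301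
def GT6 : ℕ := 0x1db857a8d9b61bd45cf0d6d61d7457b0db361bd45b70dad62e7437b0

def data6 : List (List (List ℕ)) := [[[0, 8, 10, 12, 4], [2, 6, 11, 13, 4], [0, 7, 9, 13, 5], [1, 3, 11, 12, 7], [1, 6, 10, 14, 5]], [[0, 4, 8, 12, 10], [1, 5, 6, 14, 10], [0, 7, 9, 13, 5], [1, 7, 11, 12, 3], [2, 8, 9, 14, 3]], [[0, 8, 10, 12, 4], [2, 6, 11, 13, 4], [0, 5, 7, 13, 9], [1, 7, 11, 12, 3], [1, 5, 10, 14, 6]], [[0, 4, 10, 12, 8], [2, 3, 9, 14, 8], [0, 5, 9, 13, 7], [3, 7, 11, 12, 1], [5, 6, 10, 14, 1]], [[4, 8, 10, 12, 0], [5, 7, 9, 13, 0], [1, 3, 7, 12, 11], [1, 5, 10, 14, 6], [3, 8, 9, 14, 2]], [[4, 8, 10, 12, 0], [5, 7, 9, 13, 0], [3, 7, 11, 12, 1], [5, 6, 10, 14, 1], [2, 3, 8, 14, 9]], [[0, 8, 10, 12, 4], [2, 6, 11, 13, 4], [0, 7, 9, 13, 5], [3, 7, 11, 12, 1], [5, 6, 10, 14, 1]], [[4, 8, 10, 12, 0], [5, 7, 9, 13, 0], [3, 7, 11, 12, 1], [5, 6, 10, 14, 1], [2, 8, 9, 14, 3]],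 [[4, 8, 10, 12, 0], [5, 7, 9, 13, 0], [1, 7, 11, 12, 3], [1, 5, 6, 14, 10], [3, 8, 9, 14, 2]], [[4, 8, 10, 12, 0], [5, 7, 9, 13, 0], [1, 7, 11, 12, 3], [1, 6, 10, 14, 5], [3, 8, 9, 14, 2]], [[4, 8, 10, 12, 0], [5, 7, 9, 13, 0], [3, 7, 11, 12, 1], [5, 6, 10, 14, 1], [2, 3, 9, 14, 8]], [[0, 8, 10, 12, 4], [2, 6, 11, 13, 4], [0, 5, 9, 13, 7], [3, 7, 11, 12, 1], [5, 6, 10, 14, 1]], [[4, 8, 10, 12, 0], [5, 7, 9, 13, 0], [3, 7, 11, 12, 1], [5, 6, 10, 14, 1], [2, 8, 9, 14, 3]], [[4, 8, 10, 12, 0], [5, 7, 9, 13, 0], [1, 3, 11, 12, 7], [1, 6, 10, 14, 5], [3, 8, 9, 14, 2]], [[0, 4, 10, 12, 8], [2, 3, 9, 14, 8], [0, 7, 9, 13, 5], [3, 7, 11, 12, 1], [5, 6, 10, 14, 1]]]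

theorem gen6 : pmGen (6 / 2) (List.range 6) 0 = pms6 := by decide +kernel
theorem tabGo6 : tabGo 6 15 24 CT6 GT6 pms6 pms6 0 = true := by decide +kernel
theorem tab6 : Tab 6 15 24 CT6 GT6 :=
  tab_of (by norm_num) (by norm_num) (by norm_num) (by decide +kernel) gen6 tabGo6

theorem cases6 : (allN 15 fun l => chkCase 6 15 24 CT6 GT6 [l] (data6.getD l [])) = true := by
  decide +kernel

theorem SV6 : SV 6 4 := by
  intro V _ L hV hL
  let e : V ≃ Fin 6 := Fintype.equivFinOfCardEq hV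
  show Sol L
  refine Sol.conj e ?_
  have hL' : ∀ i, PM (fun w => e (L i (e.symm w))) := fun i => PM_conj e (hL i)
  choose li hli using fun i => tab6.code _ (hL' i)
  have h := (allN_iff _ _).1 cases6 (li 0) (hli 0).1
  refine chkCase_sound tab6 h (fun i w => e (L i (e.symm w))) li hli ?_
  intro i hi
  have h0 : i = 0 := by
    apply Fin.ext
    have : (i : ℕ) < 1 := hi
    show (i : ℕ) = 0
    omega
  rw [h0]
  rfl

end Pool.Agent.Lib.MP_fe131b_co.F4
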