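import Pool.Agent.Lib.MP_fe131b_co.F4.D10

/-!
Ten points: kernel checks.
-/

set_option autoImplicit false

namespace Pool.Agent.Lib.MP_fe131b_co.F4

open Finset Function

theorem pool10_1 : (allN 7 fun k => poolOK 10 945 40 CT10 GT10 pms10 (Nat.add 7 k)) = true := by
  decide +kernel

theorem pool10_2 : (allN 7 fun k => poolOK 10 945 40 CT10 GT10 pms10 (Nat.add 14 k)) = true := by
  decide +kernel

theorem pool10_3 : (allN 7 fun k => poolOK 10 945 40 CT10 GT10 pms10 (Nat.add 21 k)) = true := by
  decide +kernel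

end Pool.Agent.Lib.MP_fe131b_co.F4
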