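import Pool.Agent.Lib.MP_fe131b_co.F4.D10

/-!
Ten points: kernel checks.
-/

set_option autoImplicit false

namespace Pool.Agent.Lib.MP_fe131b_co.F4

open Finset Function

theorem pool10_4 : (allN 7 fun k => poolOK 10 945 40 CT10 GT10 pms10 (Nat.add 28 k)) = true := by
  decide +kernel

theorem pool10_5 : (allN 7 fun k => poolOK 10 945 40 CT10 GT10 pms10 (Nat.add 35 k)) = true := by
  decide +kernel

theorem pr10_0 : chkPair 10 945 42 40 CT10 GT10 [m10_0, E10, E11, MS10] p10_0 = true := by
  decide +kernel

end Pool.Agent.Lib.MP_fe131b_co.F4
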