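import Pool.Agent.Lib.MP_fe131b_co.F4.D10

/-!
Ten points: kernel checks.
-/

set_option autoImplicit false

namespace Pool.Agent.Lib.MP_fe131b_co.F4

open Finset Function

theorem pr10_5 : chkPair 10 945 42 40 CT10 GT10 [m10_5, E10, E11, MS10] p10_5 = true := by
  decide +kernel

theorem pr10_6 : chkPair 10 945 42 40 CT10 GT10 [m10_6, E10, E11, MS10] p10_6 = true := by
  decide +kernel

theorem pr10_7 : chkPair 10 945 42 40 CT10 GT10 [m10_7, E10, E11, MS10] p10_7 = true := by
  decide +kernel

theorem pr10_8 : chkPair 10 945 42 40 CT10 GT10 [m10_8, E10, E11, MS10] p10_8 = true := by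
  decide +kernel

end Pool.Agent.Lib.MP_fe131b_co.F4
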