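import Pool.Agent.Lib.MP_fe131b_co.F4.S10a
import Pool.Agent.Lib.MP_fe131b_co.F4.S10b
import Pool.Agent.Lib.MP_fe131b_co.F4.S10c
import Pool.Agent.Lib.MP_fe131b_co.F4.S10d
import Pool.Agent.Lib.MP_fe131b_co.F4.S10e

/-!
Ten points: the single-vertex property for six labels.
-/

set_option autoImplicit false

namespace Pool.Agent.Lib.MP_fe131b_co.F4

open Finset Function

theorem pool10 : ∀ i < 42, poolOK 10 945 40 CT10 GT10 pms10 i = true := by
  intro i hi
  have h0 := (allN_iff _ _).1 pool10_0
  have h1 := (allN_iff _ _).1 pool10_1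
  have h2 := (allN_iff _ _).1 pool10_2
  have h3 := (allN_iff _ _).1 pool10_3
  have h4 := (allN_iff _ _).1 pool10_4
  have h5 := (allN_iff _ _).1 pool10_5
  by_cases c1 : i < 7
  · have := h0 i c1
    have e : Nat.add 0 i = i := Nat.zero_add i
    rw [e] at this
    exact this
  by_cases c2 : i < 14
  · have := h1 (i - 7) (by omega)
    have e : Nat.add 7 (i - 7) = i := Nat.add_sub_cancel' (by omega)
    rw [e] at this
    exact this
  by_cases c3 : i < 21
  · have := h2 (i - 14) (by omega)
    have e : Nat.add 14 (i - 14) = i := Nat.add_sub_cancel' (by omega)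
    rw [e] at this
    exact this
  by_cases c4 : i < 28
  · have := h3 (i - 21) (by omega)
    have e : Nat.add 21 (i - 21) = i := Nat.add_sub_cancel' (by omega)
    rw [e] at this
    exact this
  by_cases c5 : i < 35
  · have := h4 (i - 28) (by omega)
    have e : Nat.add 28 (i - 28) = i := Nat.add_sub_cancel' (by omega)
    rw [e] at this
    exact this
  · have := h5 (i - 35) (by omega)
    have e : Nat.add 35 (i - 35) = i := Nat.add_sub_cancel' (by omega)
    rw [e] at this
    exact this

theorem comp10_2 {m : ℕ} {S : List (ℕ × List ℕ)}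
    (hF : [m, E10, E11, MS10].all (okPM 10) = true)
    (h : chkPair 10 945 42 40 CT10 GT10 [m, E10, E11, MS10] S = true) :
    Comp 10 2 [m, E10, E11, MS10] :=
  pair_sound (by norm_num) code10 len10 pool10 (List.all_eq_true.1 hF) h

theorem comp10_3 : Comp 10 3 [E10, E11, MS10] := by
  refine step_sound (pms := pms10) (F' := fun e => [e.m, E10, E11, MS10]) (cands := C3)
    (by norm_num) code10 (by decide +kernel) (by decide +kernel) a10_3 (by decide +kernel) ?_
  intro e he
  simp only [C3, List.map_cons, List.map_nil, List.mem_cons, List.not_mem_nil, or_false] at he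
  rcases he with rfl | rfl | rfl | rfl | rfl | rfl | rfl | rfl | rfl
  · exact comp10_2 (by decide +kernel) pr10_0
  · exact comp10_2 (by decide +kernel) pr10_1
  · exact comp10_2 (by decide +kernel) pr10_2
  · exact comp10_2 (by decide +kernel) pr10_3
  · exact comp10_2 (by decide +kernel) pr10_4
  · exact comp10_2 (by decide +kernel) pr10_5
  · exact comp10_2 (by decide +kernel) pr10_6
  · exact comp10_2 (by decide +kernel) pr10_7
  · exact comp10_2 (by decide +kernel) pr10_8

theorem comp10_4 : Comp 10 4 [E10, E11] :=
  step_sound (pms := pms10) (F' := fun _ => [E10, E11, MS10]) (cands := C2)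
    (by norm_num) code10 (by decide +kernel) (by decide +kernel) a10_2 (by decide +kernel)
    (fun _ _ => comp10_3)

theorem comp10_5 : Comp 10 5 [E10] :=
  step_sound (pms := pms10) (F' := fun _ => [E10, E11]) (cands := C1)
    (by norm_num) code10 (by decide +kernel) (by decide +kernel) a10_1 (by decide +kernel)
    (fun _ _ => comp10_4)

theorem comp10_6 : Comp 10 6 [] :=
  step_sound (pms := pms10) (F' := fun _ => [E10]) (cands := C0)
    (by norm_num) code10 (by decide +kernel) (by decide +kernel) a10_0 (by decide +kernel)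
    (fun _ _ => comp10_5)

theorem SV10 : SV 10 6 := by
  intro V _ L hV hL
  let e : V ≃ Fin 10 := Fintype.equivFinOfCardEq hV
  show Sol L
  refine Sol.conj e ?_
  obtain ⟨M, h1, h2, h3, -⟩ := comp10_6 (fun i w => e (L i (e.symm w)))
    (fun i => PM_conj e (hL i))
  exact ⟨M, h1, h2, h3⟩

end Pool.Agent.Lib.MP_fe131b_co.F4
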