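import Pool.Agent.Lib.MP_fe131b_co.F4.D8

/-!
Eight points: kernel checks.
-/

set_option autoImplicit false

namespace Pool.Agent.Lib.MP_fe131b_co.F4

open Finset Function

/-- the check of one case -/
def cc8c (k : ℕ × ℕ × List (List ℕ)) : Bool :=
  chkCase 8 105 32 CT8 GT8 [0, k.1, k.2.1] k.2.2

theorem c8_7 : K8_7.all cc8c = true := by decide +kernel
theorem c8_8 : K8_8.all cc8c = true := by decide +kernel
theorem c8_9 : K8_9.all cc8c = true := by decide +kernel
theorem c8_10 : K8_10.all cc8c = true := by decide +kernel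

end Pool.Agent.Lib.MP_fe131b_co.F4
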