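import Pool.Agent.Lib.MP_fe131b_co.F4.S8a
import Pool.Agent.Lib.MP_fe131b_co.F4.S8b
import Pool.Agent.Lib.MP_fe131b_co.F4.S8c

/-!
Eight points: the single-vertex property for six labels.
-/

set_option autoImplicit false

namespace Pool.Agent.Lib.MP_fe131b_co.F4

open Finset Function

theorem cases8 : ∀ k ∈ K8, chkCase 8 105 32 CT8 GT8 [0, k.1, k.2.1] k.2.2 = true := by
  intro k hk
  unfold K8 at hk
  simp only [List.mem_append] at hk
  rcases hk with (((((((((hk | hk) | hk) | hk) | hk) | hk) | hk) | hk) | hk) | hk) | hk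
  · exact List.all_eq_true.1 c8_0 k hk
  · exact List.all_eq_true.1 c8_1 k hk
  · exact List.all_eq_true.1 c8_2 k hk
  · exact List.all_eq_true.1 c8_3 k hk
  · exact List.all_eq_true.1 c8_4 k hk
  · exact List.all_eq_true.1 c8_5 k hk
  · exact List.all_eq_true.1 c8_6 k hk
  · exact List.all_eq_true.1 c8_7 k hk
  · exact List.all_eq_true.1 c8_8 k hk
  · exact List.all_eq_true.1 c8_9 k hk
  · exact List.all_eq_true.1 c8_10 k hk

theorem SV8 : SV 8 6 := by
  intro V _ L hV hL
  let e : V ≃ Fin 8 := Fintype.equivFinOfCardEq hV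
  show Sol L
  refine Sol.conj e ?_
  -- first label
  set L1 : Fin 6 → Fin 8 → Fin 8 := fun i w => e (L i (e.symm w)) with hL1
  have hP1 : ∀ i, PM (L1 i) := fun i => PM_conj e (hL i)
  have r0 := rel80
  rw [Bool.and_eq_true, Bool.and_eq_true] at r0
  obtain ⟨e0, s0, hs0, ⟨g0, hg0⟩, -, hc0⟩ := relab_step tab8 (fix := []) (by simp) r0.2.2
    (Nat.eq_of_beq_eq_true r0.1) (hP1 0)
  have hs0' : s0 = 0 := Nat.eq_of_beq_eq_true (List.all_eq_true.1 r0.2.1 _ hg0)
  subst hs0'
  refine Sol.conj e0 ?_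
  set L2 : Fin 6 → Fin 8 → Fin 8 := fun i w => e0 (L1 i (e0.symm w)) with hL2
  have hP2 : ∀ i, PM (L2 i) := fun i => PM_conj e0 (hP1 i)
  have h20 : L2 0 = fn 8 (row CT8 32 0) := hc0
  -- second label
  have r1 := rel81
  rw [Bool.and_eq_true, Bool.and_eq_true] at r1
  obtain ⟨e1, s1, hs1, ⟨g1, hg1⟩, hf1, hc1⟩ := relab_step tab8 (fix := [0]) (by simp) r1.2.2
    (Nat.eq_of_beq_eq_true r1.1) (hP2 1)
  have hm1 := List.all_eq_true.1 r1.2.1 _ hg1
  obtain ⟨f, hf, hfe⟩ := List.any_eq_true.1 hm1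
  have hfe' : f.1 = s1 := Nat.eq_of_beq_eq_true hfe
  refine Sol.conj e1 ?_
  set L3 : Fin 6 → Fin 8 → Fin 8 := fun i w => e1 (L2 i (e1.symm w)) with hL3
  have hP3 : ∀ i, PM (L3 i) := fun i => PM_conj e1 (hP2 i)
  have h30 : L3 0 = fn 8 (row CT8 32 0) := by
    have := hf1 0 (by simp)
    rw [← this]
    funext w
    simp only [hL3, h20]
  have h31 : L3 1 = fn 8 (row CT8 32 s1) := hc1
  -- third label
  have r2 := List.all_eq_true.1 rel82 f hf
  rw [Bool.and_eq_true, Bool.and_eq_true, Bool.and_eq_true] at r2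
  rw [hfe'] at r2
  obtain ⟨e2, s2, hs2, ⟨g2, hg2⟩, hf2, hc2⟩ := relab_step tab8 (fix := [0, s1])
    (by
      intro x hx
      simp only [List.mem_cons, List.not_mem_nil, or_false] at hx
      rcases hx with rfl | rfl
      · norm_num
      · exact hs1) r2.2.2
    (Nat.eq_of_beq_eq_true r2.1.2) (hP3 2)
  have hm2 := List.all_eq_true.1 r2.2.1 _ hg2
  obtain ⟨k, hk, hke⟩ := List.any_eq_true.1 hm2
  rw [Bool.and_eq_true] at hke
  have hk1 : k.1 = s1 := Nat.eq_of_beq_eq_true hke.1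
  have hk2 : k.2.1 = s2 := Nat.eq_of_beq_eq_true hke.2
  refine Sol.conj e2 ?_
  set L4 : Fin 6 → Fin 8 → Fin 8 := fun i w => e2 (L3 i (e2.symm w)) with hL4
  have hP4 : ∀ i, PM (L4 i) := fun i => PM_conj e2 (hP3 i)
  have h40 : L4 0 = fn 8 (row CT8 32 0) := by
    have := hf2 0 (by simp)
    rw [← this]
    funext w
    simp only [hL4, h30]
  have h41 : L4 1 = fn 8 (row CT8 32 s1) := by
    have := hf2 s1 (by simp)
    rw [← this]
    funext w
    simp only [hL4, h31]
  have h42 : L4 2 = fn 8 (row CT8 32 s2) := hc2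
  have hcase := cases8 k hk
  rw [hk1, hk2] at hcase
  choose li hli using fun i => tab8.code _ (hP4 i)
  refine chkCase_sound tab8 hcase L4
    (fun i => if (i : ℕ) = 0 then 0 else if (i : ℕ) = 1 then s1 else if (i : ℕ) = 2 then s2
      else li i) ?_ ?_
  · intro i
    by_cases i0 : (i : ℕ) = 0
    · have : i = 0 := Fin.ext i0
      subst this
      rw [if_pos i0, h40]
      exact ⟨by norm_num, (tab8.pm 0 (by norm_num)).2⟩
    · by_cases i1 : (i : ℕ) = 1
      · have : i = 1 := Fin.ext i1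
        subst this
        rw [if_neg i0, if_pos i1, h41]
        exact ⟨hs1, (tab8.pm s1 hs1).2⟩
      · by_cases i2 : (i : ℕ) = 2
        · have : i = 2 := Fin.ext i2
          subst this
          rw [if_neg i0, if_neg i1, if_pos i2, h42]
          exact ⟨hs2, (tab8.pm s2 hs2).2⟩
        · rw [if_neg i0, if_neg i1, if_neg i2]
          exact hli i
  · intro i hi
    have hi3 : (i : ℕ) < 3 := hi
    rcases (by omega : (i : ℕ) = 0 ∨ (i : ℕ) = 1 ∨ (i : ℕ) = 2) with h | h | h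
    · simp only [h, if_true]
      rfl
    · simp only [h]
      rfl
    · simp only [h]
      rfl

end Pool.Agent.Lib.MP_fe131b_co.F4
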