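import Pool.Agent.Lib.MP_fe131b_co.F4.Cross14
import Pool.Agent.Lib.MP_fe131b_co.F4.D6
import Pool.Agent.Lib.MP_fe131b_co.F4.S8
import Pool.Agent.Lib.MP_fe131b_co.F4.S10

/-!
The single-vertex property with six labels for every even degree at least eight.
-/

set_option autoImplicit false

namespace Pool.Agent.Lib.MP_fe131b_co.F4

theorem SV_six (n : ℕ) (hn : Even n) (h8 : 8 ≤ n) : SV n 6 := by
  induction n using Nat.strong_induction_on with
  | _ n ih =>
    obtain ⟨m, rfl⟩ := hn
    by_cases h1 : m < 8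
    · have h2 : m = 4 ∨ m = 5 ∨ m = 6 ∨ m = 7 := by omega
      rcases h2 with rfl | rfl | rfl | rfl
      · exact SV8
      · exact SV10
      · exact SV12 SV6
      · exact SV14 (SV_mono SV8 (by norm_num)) SV6
    · have e : m + m = 8 + (m - 4 + (m - 4)) := by omega
      have h3 : SV (m - 4 + (m - 4)) 6 := ih _ (by omega) ⟨m - 4, rfl⟩ (by omega)
      rw [e]
      exact SV_add SV8 h3 (by decide) ⟨m - 4, rfl⟩ (by norm_num) (by omega)

end Pool.Agent.Lib.MP_fe131b_co.F4
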