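import Pool.Agent.Lib.MP_fe131b_co.F4.Eng2

/-!
Splitting: completing the labels inside the parts of a partition. This is the reduction theorem
of `Final.lean` with a different matching for every label.
-/

set_option autoImplicit false

namespace Pool.Agent.Lib.MP_fe131b_co.F4

open Finset Function

theorem process' {H W : Type} [Finite H] [DecidableEq W] (k : ℕ) (α : Fin k → H → H)
    (hα : ∀ i, PM (α i)) (φ : H → W)
    (heven : ∀ w, Even (Nat.card {h // φ h = w}))
    (hSV : ∀ w, SV (Nat.card {h // φ h = w}) k ∨ IsEmpty {h // φ h = w}) (S : Finset W) :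
    ∃ τ : Fin k → H → H, (∀ i, PM (τ i)) ∧ (∀ i h, φ (τ i h) = φ h) ∧
      (∀ i j, i ≠ j → ∀ h, φ h ∈ S → τ i h ≠ τ j h) ∧
      (∀ i h h', φ h ∈ S → φ h' = φ h → (rel (α i) (τ i)).r h h') := by
  classical
  induction S using Finset.induction_on with
  | empty =>
    obtain ⟨f, hf1, hf2⟩ := exists_pairing φ heven
    exact ⟨fun _ => f, fun _ => hf1, fun _ h => hf2 h, fun i j _ h hh => by simp at hh,
      fun i h h' hh => by simp at hh⟩
  | insert w S hw ih =>
    obtain ⟨τ, h1, h2, h3, h4⟩ := ih
    rcases hSV w with hsv | hemp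
    · -- the restricted relation
      let τ' : Fin k → H → H := fun i h => if φ h = w then h else τ i h
      have hout := fun i => exists_outer (α i) (hα i) φ w (τ i) (h1 i) (h2 i)
        (rel (α i) (τ' i)) (fun h => rel_L _ _ h) (by
          intro h hh
          have : τ' i h = τ i h := by simp only [τ']; rw [if_neg hh]
          rw [← this]
          exact rel_M _ _ h)
      choose L hL1 hL2 using hout
      have : Fintype {h // φ h = w} := Fintype.ofFinite _
      obtain ⟨M, hM1, hM2, hM3⟩ := hsv {h // φ h = w} L (Nat.card_eq_fintype_card).symm hL1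
      let τn : Fin k → H → H := fun i h => if hh : φ h = w then (M i ⟨h, hh⟩).1 else τ i h
      have e1 : ∀ i h (hh : φ h = w), τn i h = (M i ⟨h, hh⟩).1 := by
        intro i h hh; simp only [τn]; rw [dif_pos hh]
      have e2 : ∀ i h, φ h ≠ w → τn i h = τ i h := by
        intro i h hh; simp only [τn]; rw [dif_neg hh]
      have hφn : ∀ i h, φ (τn i h) = φ h := by
        intro i h
        by_cases hh : φ h = w
        · rw [e1 i h hh, hh]; exact (M i ⟨h, hh⟩).2
        · rw [e2 i h hh]; exact h2 i h
      have hpm : ∀ i, PM (τn i) := by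
        intro i
        constructor
        · intro h
          by_cases hh : φ h = w
          · have hh' : φ (τn i h) = w := by rw [hφn, hh]
            rw [e1 i _ hh']
            have : (⟨τn i h, hh'⟩ : {h // φ h = w}) = M i ⟨h, hh⟩ := Subtype.ext (e1 i h hh)
            rw [this, (hM1 i).1]
          · have hh' : φ (τn i h) ≠ w := by rw [hφn]; exact hh
            rw [e2 i _ hh', e2 i h hh, (h1 i).1]
        · intro h
          by_cases hh : φ h = w
          · rw [e1 i h hh]
            exact fun h' => (hM1 i).2 ⟨h, hh⟩ (Subtype.ext h')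
          · rw [e2 i h hh]; exact (h1 i).2 h
      -- the outer relation is contained in the new one
      have hle1 : ∀ i x y, (rel (α i) (τ' i)).r x y → (rel (α i) (τn i)).r x y := by
        intro i x y hxy
        refine rel_le_of (rel (α i) (τn i)) (rel_L _ _) ?_ hxy
        intro z
        by_cases hz : φ z = w
        · have : τ' i z = z := by simp only [τ']; rw [if_pos hz]
          rw [this]
        · have : τ' i z = τ i z := by simp only [τ']; rw [if_neg hz]
          rw [this, ← e2 i z hz]
          exact rel_M _ _ z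
      -- all ends at w are connected
      have hw1 : ∀ i (x y : {h // φ h = w}), (rel (α i) (τn i)).r x.1 y.1 := by
        intro i x y
        have h5 := hM3 i x y
        refine rel_le_of (Setoid.comap Subtype.val (rel (α i) (τn i))) ?_ ?_ h5
        · intro z
          exact hle1 i _ _ (hL2 i z)
        · intro z
          change (rel (α i) (τn i)).r z.1 (M i z).1
          rw [← e1 i z.1 z.2]
          exact rel_M _ _ _
      have hle2 : ∀ i x y, (rel (α i) (τ i)).r x y → (rel (α i) (τn i)).r x y := by
        intro i x y hxy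
        refine rel_le_of (rel (α i) (τn i)) (rel_L _ _) ?_ hxy
        intro z
        by_cases hz : φ z = w
        · exact hw1 i ⟨z, hz⟩ ⟨τ i z, by rw [h2, hz]⟩
        · rw [← e2 i z hz]
          exact rel_M _ _ z
      refine ⟨τn, hpm, hφn, ?_, ?_⟩
      · intro i j hij h hh
        by_cases hhw : φ h = w
        · rw [e1 i h hhw, e1 j h hhw]
          intro h'
          exact hM2 i j hij ⟨h, hhw⟩ (Subtype.ext h')
        · rw [e2 i h hhw, e2 j h hhw]
          rcases Finset.mem_insert.1 hh with hh | hh
          · exact absurd hh hhw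
          · exact h3 i j hij h hh
      · intro i h h' hh hh'
        by_cases hhw : φ h = w
        · exact hw1 i ⟨h, hhw⟩ ⟨h', by rw [hh', hhw]⟩
        · rcases Finset.mem_insert.1 hh with hh | hh
          · exact absurd hh hhw
          · exact hle2 i h h' (h4 i h h' hh hh')
    · have hne : ∀ h, φ h ≠ w := fun h hh => hemp.false ⟨h, hh⟩
      refine ⟨τ, h1, h2, ?_, ?_⟩
      · intro i j hij h hh
        rcases Finset.mem_insert.1 hh with hh | hh
        · exact absurd hh (hne h)
        · exact h3 i j hij h hh
      · intro i h h' hh hh'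
        rcases Finset.mem_insert.1 hh with hh | hh
        · exact absurd hh (hne h)
        · exact h4 i h h' hh hh'

/-- completing the labels inside a set and inside its complement -/
theorem split {V : Type} [Fintype V] [DecidableEq V] {k : ℕ} (A : Finset V)
    (L : Fin k → V → V) (hL : ∀ i, PM (L i)) (h1 : SV A.card k) (h2 : SV Aᶜ.card k)
    (e1 : Even A.card) (e2 : Even Aᶜ.card) (hx : ∀ i, ∃ v ∈ A, L i v ∉ A) :
    ∃ τ : Fin k → V → V, (∀ i, PM (τ i)) ∧ Disj τ ∧ (∀ i, Connected (L i) (τ i)) ∧
      ∀ i v, τ i v ∈ A ↔ v ∈ A := by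
  let φ : V → Bool := fun v => decide (v ∈ A)
  have c1 : Nat.card {h // φ h = true} = A.card := by
    rw [Nat.card_eq_fintype_card, Fintype.card_subtype]
    congr 1
    ext v
    simp [φ]
  have c2 : Nat.card {h // φ h = false} = Aᶜ.card := by
    rw [Nat.card_eq_fintype_card, Fintype.card_subtype]
    congr 1
    ext v
    simp [φ]
  obtain ⟨τ, t1, t2, t3, t4⟩ := process' k L hL φ (by
      intro w
      cases w
      · rw [c2]; exact e2
      · rw [c1]; exact e1) (by
      intro w
      cases w
      · left; rw [c2]; exact h2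
      · left; rw [c1]; exact h1) Finset.univ
  refine ⟨τ, t1, fun i j hij v => t3 i j hij v (Finset.mem_univ _), ?_, ?_⟩
  · intro i
    have hA : ∀ v w, v ∈ A → w ∈ A → (rel (L i) (τ i)).r v w := by
      intro v w hv hw
      refine t4 i v w (Finset.mem_univ _) ?_
      simp [φ, hv, hw]
    have hB : ∀ v w, v ∉ A → w ∉ A → (rel (L i) (τ i)).r v w := by
      intro v w hv hw
      refine t4 i v w (Finset.mem_univ _) ?_
      simp [φ, hv, hw]
    obtain ⟨v0, hv0, hv1⟩ := hx i
    have hAB : ∀ v w, v ∈ A → w ∉ A → (rel (L i) (τ i)).r v w := by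
      intro v w hv hw
      exact rel_trans (hA v v0 hv hv0) (rel_trans (rel_L _ _ _) (hB _ _ hv1 hw))
    intro v w
    by_cases hv : v ∈ A <;> by_cases hw : w ∈ A
    · exact hA v w hv hw
    · exact hAB v w hv hw
    · exact rel_symm (hAB w v hw hv)
    · exact hB v w hv hw
  · intro i v
    have := t2 i v
    simp only [φ, decide_eq_decide] at this
    exact this

/-- a set of given size that contains a point but none of its partners -/
theorem exists_set {V : Type} [Fintype V] [DecidableEq V] {k : ℕ} (L : Fin k → V → V)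
    (hL : ∀ i, PM (L i)) (a : ℕ) (ha : 1 ≤ a) (h : a + k ≤ Fintype.card V) :
    ∃ A : Finset V, A.card = a ∧ ∀ i, ∃ v ∈ A, L i v ∉ A := by
  have hne : Nonempty V := by
    rw [← Fintype.card_pos_iff]; omega
  obtain ⟨x⟩ := hne
  let P : Finset V := Finset.univ.image (fun i => L i x)
  have hP : P.card ≤ k := by
    calc P.card ≤ (Finset.univ : Finset (Fin k)).card := Finset.card_image_le
      _ = k := by simp
  have hxP : x ∉ P := by
    intro hx
    obtain ⟨i, -, hi⟩ := Finset.mem_image.1 hx
    exact (hL i).2 x hi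
  have hc : a ≤ (Pᶜ).card := by
    rw [Finset.card_compl]; omega
  obtain ⟨A, hA1, hA2, hA3⟩ := Finset.exists_subsuperset_card_eq
    (s := {x}) (t := Pᶜ) (n := a) (by
      intro y hy
      rw [Finset.mem_singleton] at hy
      rw [hy, Finset.mem_compl]
      exact hxP) (by simpa using ha) hc
  refine ⟨A, hA3, fun i => ⟨x, hA1 (by simp), ?_⟩⟩
  intro h2
  have := hA2 h2
  rw [Finset.mem_compl] at this
  exact this (Finset.mem_image.2 ⟨i, Finset.mem_univ _, rfl⟩)

/-- the single-vertex property of a sum -/
theorem SV_add {a b k : ℕ} (ha : SV a k) (hb : SV b k) (ea : Even a) (eb : Even b) (h1 : 1 ≤ a)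
    (hk : k ≤ b) : SV (a + b) k := by
  classical
  intro V _ L hV hL
  obtain ⟨A, hA, hx⟩ := exists_set L hL a h1 (by omega)
  have hB : Aᶜ.card = b := by rw [Finset.card_compl]; omega
  obtain ⟨τ, t1, t2, t3, -⟩ := split A L hL (by rw [hA]; exact ha) (by rw [hB]; exact hb)
    (by rw [hA]; exact ea) (by rw [hB]; exact eb) hx
  exact ⟨τ, t1, t2, t3⟩

/-- fewer labels -/
theorem SV_mono {n k k' : ℕ} (h : SV n k) (hk : k' ≤ k) : SV n k' := by
  classical
  intro V _ L hV hL
  rcases Nat.eq_zero_or_pos k' with rfl | hpos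
  · exact ⟨fun i => i.elim0, fun i => i.elim0, fun i => i.elim0, fun i => i.elim0⟩
  obtain ⟨M, h1, h2, h3⟩ := h V
    (fun i => if hi : (i : ℕ) < k' then L ⟨i, hi⟩ else L ⟨0, hpos⟩) hV (by
      intro i
      by_cases hi : (i : ℕ) < k'
      · simp only [dif_pos hi]; exact hL _
      · simp only [dif_neg hi]; exact hL _)
  refine ⟨fun i => M ⟨i, lt_of_lt_of_le i.2 hk⟩, fun i => h1 _, ?_, ?_⟩
  · intro i j hij v
    refine h2 _ _ ?_ v
    intro h4
    apply hij
    apply Fin.ext
    exact congrArg (fun t : Fin k => (t : ℕ)) h4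
  · intro i
    have h4 := h3 ⟨i, lt_of_lt_of_le i.2 hk⟩
    simp only [dif_pos i.2] at h4
    exact h4

end Pool.Agent.Lib.MP_fe131b_co.F4
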