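import Pool.Agent.Lib.MP_fe131b_co.F4.K12
import Pool.Agent.Lib.MP_fe131b_co.F4.Split

/-!
Matchings between the two sides of a set.
-/

set_option autoImplicit false

namespace Pool.Agent.Lib.MP_fe131b_co.F4

open Finset Function

/-- six against six points: a matching between the sides that avoids a given one -/
theorem cross {V : Type} [Fintype V] [DecidableEq V] (A : Finset V) (hA : A.card = 6)
    (hB : Aᶜ.card = 6) (g : V → V) (hg : ∀ v ∈ A, g v ∉ A)
    (hinj : ∀ v ∈ A, ∀ w ∈ A, g v = g w → v = w) {L : V → V} (hL : PM L) :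
    ∃ M : V → V, PM M ∧ (∀ v, M v ∈ A ↔ v ∉ A) ∧ (∀ v ∈ A, M v ≠ g v) ∧ Connected L M := by
  have hV : Fintype.card V = 12 := by
    have := Finset.card_add_card_compl A
    omega
  let a : Fin 6 ≃ A := (Fintype.equivFinOfCardEq (by rw [Fintype.card_coe]; exact hA)).symm
  let e0 : Fin 12 → V := fun j => if h : (j : ℕ) < 6 then (a ⟨j, h⟩ : V)
    else g (a ⟨(j : ℕ) - 6, by have := j.2; omega⟩ : V)
  have e1 : ∀ (j : Fin 12) (h : (j : ℕ) < 6), e0 j = (a ⟨j, h⟩ : V) := by
    intro j h; simp only [e0]; rw [dif_pos h]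
  have e2 : ∀ (j : Fin 12) (h : ¬ (j : ℕ) < 6), e0 j =
      g (a ⟨(j : ℕ) - 6, by have := j.2; omega⟩ : V) := by
    intro j h; simp only [e0]; rw [dif_neg h]
  have e3 : ∀ j : Fin 12, e0 j ∈ A ↔ (j : ℕ) < 6 := by
    intro j
    by_cases h : (j : ℕ) < 6
    · rw [e1 j h]
      exact ⟨fun _ => h, fun _ => (a ⟨j, h⟩).2⟩
    · rw [e2 j h]
      exact ⟨fun h' => absurd h' (hg _ (a _).2), fun h' => absurd h' h⟩
  have hinj0 : Injective e0 := by
    intro i j hij
    have h3 := e3 i
    rw [hij, e3 j] at h3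
    by_cases h : (i : ℕ) < 6
    · have h' := h3.2 h
      rw [e1 i h, e1 j h'] at hij
      have h4 := a.injective (Subtype.ext hij)
      have h5 : (i : ℕ) = j := congrArg (fun t : Fin 6 => (t : ℕ)) h4
      exact Fin.ext h5
    · have h' : ¬ (j : ℕ) < 6 := fun h'' => h (h3.1 h'')
      rw [e2 i h, e2 j h'] at hij
      have h4 := a.injective (Subtype.ext (hinj _ (a _).2 _ (a _).2 hij))
      have h5 : (i : ℕ) - 6 = (j : ℕ) - 6 := congrArg (fun t : Fin 6 => (t : ℕ)) h4
      apply Fin.ext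
      omega
  have hbij : Bijective e0 :=
    (Fintype.bijective_iff_injective_and_card e0).2 ⟨hinj0, by rw [hV]; simp⟩
  let e : Fin 12 ≃ V := Equiv.ofBijective e0 hbij
  have he : ∀ j, e j = e0 j := fun j => rfl
  obtain ⟨M, m1, m2, m3, m4⟩ := K12 (PM_conj e.symm hL)
  refine ⟨fun v => e (M (e.symm v)), PM_conj e m1, ?_, ?_, ?_⟩
  · intro v
    obtain ⟨j, rfl⟩ := e.surjective v
    show e (M (e.symm (e j))) ∈ A ↔ e j ∉ A
    rw [he (M _), e3, m2, Equiv.symm_apply_apply, he, e3]
  · intro v hv h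
    obtain ⟨j, rfl⟩ := e.surjective v
    have h : e (M (e.symm (e j))) = g (e j) := h
    rw [Equiv.symm_apply_apply] at h
    have hj : (j : ℕ) < 6 := (e3 j).1 hv
    have hMj : ¬ (M j : ℕ) < 6 := fun h' => (m2 j).1 h' hj
    have h1 : e (M j) = g (a ⟨(M j : ℕ) - 6, by have := (M j).2; omega⟩ : V) := e2 _ hMj
    have h2 : e j = (a ⟨j, hj⟩ : V) := e1 j hj
    rw [h1, h2] at h
    have h4 := a.injective (Subtype.ext (hinj _ (a _).2 _ (a _).2 h))
    have h5 : (M j : ℕ) - 6 = (j : ℕ) := congrArg (fun t : Fin 6 => (t : ℕ)) h4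
    apply m3 j hj
    omega
  · have h4 := connected_conj e m4
    have e5 : (fun w => e ((fun w => e.symm (L (e.symm.symm w))) (e.symm w))) = L := by
      funext w; simp
    rw [e5] at h4
    exact h4

/-- an injection from a set to its complement -/
theorem exists_inj {V : Type} [Fintype V] [DecidableEq V] (A : Finset V)
    (hA : A.card ≤ Aᶜ.card) : ∃ g : V → V, (∀ v ∈ A, g v ∉ A) ∧
      ∀ v ∈ A, ∀ w ∈ A, g v = g w → v = w := by
  have h1 : Fintype.card A ≤ Fintype.card ((Aᶜ : Finset V) : Type) := by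
    rw [Fintype.card_coe, Fintype.card_coe]; exact hA
  obtain ⟨f⟩ := Function.Embedding.nonempty_of_card_le h1
  refine ⟨fun v => if h : v ∈ A then (f ⟨v, h⟩ : V) else v, ?_, ?_⟩
  · intro v hv
    simp only [dif_pos hv]
    exact Finset.mem_compl.1 (f ⟨v, hv⟩).2
  · intro v hv w hw h
    simp only [dif_pos hv, dif_pos hw] at h
    have := f.injective (Subtype.ext h)
    exact congrArg Subtype.val this

theorem SV12 (h6 : SV 6 4) : SV 12 6 := by
  classical
  intro V _ L hV hL
  obtain ⟨A, hA, hx⟩ := exists_set (fun i : Fin 4 => L (Fin.castLE (by norm_num) i))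
    (fun i => hL _) 6 (by norm_num) (by omega)
  have hB : Aᶜ.card = 6 := by rw [Finset.card_compl]; omega
  obtain ⟨τ, t1, t2, t3, t4⟩ := split A (fun i : Fin 4 => L (Fin.castLE (by norm_num) i))
    (fun i => hL _) (by rw [hA]; exact h6) (by rw [hB]; exact h6) (by rw [hA]; decide)
    (by rw [hB]; decide) hx
  obtain ⟨g, g1, g2⟩ := exists_inj A (by omega)
  obtain ⟨M, a1, a2, a3, a4⟩ := cross A hA hB g g1 g2 (hL 4)
  obtain ⟨N, b1, b2, b3, b4⟩ := cross A hA hB M (fun v hv h => (a2 v).1 h hv)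
    (fun v _ w _ h => by rw [← a1.1 v, h, a1.1 w]) (hL 5)
  have hMN : ∀ v, M v ≠ N v := by
    intro v h
    by_cases hv : v ∈ A
    · exact b3 v hv h.symm
    · have h1 := (a2 v).2 hv
      have h2 : N (M v) = M (M v) := by rw [a1.1, h, b1.1]
      exact b3 _ h1 h2
  have hτM : ∀ i v, τ i v ≠ M v := by
    intro i v h
    have h1 := t4 i v
    rw [h, a2] at h1
    exact iff_not_self h1.symm
  have hτN : ∀ i v, τ i v ≠ N v := by
    intro i v h
    have h1 := t4 i v
    rw [h, b2] at h1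
    exact iff_not_self h1.symm
  refine ⟨![τ 0, τ 1, τ 2, τ 3, M, N], ?_, ?_, ?_⟩
  · intro i
    fin_cases i
    · exact t1 0
    · exact t1 1
    · exact t1 2
    · exact t1 3
    · exact a1
    · exact b1
  · intro i j hij v
    fin_cases i <;> fin_cases j <;> first
      | exact absurd rfl hij
      | exact t2 _ _ (by decide) v
      | exact hτM _ v
      | exact hτN _ v
      | exact (hτM _ v).symm
      | exact (hτN _ v).symm
      | exact hMN v
      | exact (hMN v).symm
  · intro i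
    fin_cases i
    · exact t3 0
    · exact t3 1
    · exact t3 2
    · exact t3 3
    · exact a4
    · exact b4

end Pool.Agent.Lib.MP_fe131b_co.F4
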