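import Pool.Agent.Lib.MP_fe131b_co.F4.Cross

/-!
Fourteen points.
-/

set_option autoImplicit false

namespace Pool.Agent.Lib.MP_fe131b_co.F4

open Finset Function

/-- adding the pair of `a` and `b` to a matching of the remaining points -/
theorem contract {V : Type} [Fintype V] [DecidableEq V] {L : V → V} (hL : PM L) {a b : V}
    (hab : a ≠ b) (hLab : L a ≠ b) :
    ∃ L' : {v // decide (v ≠ a ∧ v ≠ b) = true} → {v // decide (v ≠ a ∧ v ≠ b) = true},
      PM L' ∧ ∀ M' : {v // decide (v ≠ a ∧ v ≠ b) = true} →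
        {v // decide (v ≠ a ∧ v ≠ b) = true}, PM M' → Connected L' M' →
        ∃ M : V → V, PM M ∧ M a = b ∧ (∀ x, M x.1 = (M' x).1) ∧ Connected L M := by
  let φ : V → Bool := fun v => decide (v ≠ a ∧ v ≠ b)
  have hφ : ∀ v, φ v = true ↔ v ≠ a ∧ v ≠ b := fun v => decide_eq_true_iff
  have hφ' : ∀ v, φ v = false ↔ v = a ∨ v = b := by
    intro v
    rw [← Bool.not_eq_true, hφ, not_and_or, not_not, not_not]
  have hswap : ∀ v, φ v = false → Equiv.swap a b v = a ∨ Equiv.swap a b v = b := by
    intro v hv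
    rcases (hφ' v).1 hv with rfl | rfl
    · right; exact Equiv.swap_apply_left _ _
    · left; exact Equiv.swap_apply_right _ _
  have c0 : Nat.card {v // φ v = false} = 2 := by
    rw [Nat.card_eq_fintype_card, Fintype.card_subtype]
    have e : (Finset.univ.filter fun v => φ v = false) = {a, b} := by
      ext v
      simp only [Finset.mem_filter, Finset.mem_univ, true_and, Finset.mem_insert,
        Finset.mem_singleton]
      exact hφ' v
    rw [e, Finset.card_pair hab]
  have c1 : Nat.card {v // φ v = true} + Nat.card {v // φ v = false} = Fintype.card V := by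
    rw [Nat.card_eq_fintype_card, Nat.card_eq_fintype_card, Fintype.card_subtype,
      Fintype.card_subtype]
    have := Finset.card_filter_add_card_filter_not (s := (Finset.univ : Finset V))
      (fun v => φ v = true)
    rw [Finset.card_univ] at this
    rw [← this]
    congr 2
    ext v
    simp
  have c2 : Even (Fintype.card V) := by
    rw [← Finset.card_univ]
    exact even_card_of_involution _ L (fun x _ => hL.1 x) (fun x _ => hL.2 x)
      (fun x _ => Finset.mem_univ _)
  obtain ⟨τ, hτ, hτφ⟩ := exists_pairing φ (by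
    intro w
    cases w
    · rw [c0]; decide
    · have : Even (Nat.card {v // φ v = true} + 2) := by rw [← c0, c1]; exact c2
      simpa [Nat.even_add] using this)
  obtain ⟨L', hL', hs⟩ := exists_outer L hL φ true τ hτ hτφ (rel L (Equiv.swap a b))
    (fun v => rel_L _ _ v) (by
      intro v hv
      have hv' : φ v = false := by simpa using hv
      have h1 : φ (τ v) = false := by rw [hτφ]; exact hv'
      have h2 : τ v = Equiv.swap a b v := by
        rcases (hφ' v).1 hv' with h3 | h3
        · rw [h3, Equiv.swap_apply_left]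
          rw [h3] at h1
          rcases (hφ' _).1 h1 with h4 | h4
          · exact absurd h4 (hτ.2 a)
          · exact h4
        · rw [h3, Equiv.swap_apply_right]
          rw [h3] at h1
          rcases (hφ' _).1 h1 with h4 | h4
          · exact h4
          · exact absurd h4 (hτ.2 b)
      rw [h2]
      exact rel_M _ _ v)
  refine ⟨L', hL', ?_⟩
  intro M' hM' hc
  let M : V → V := fun v => if h : φ v = true then (M' ⟨v, h⟩).1 else Equiv.swap a b v
  have e1 : ∀ v (h : φ v = true), M v = (M' ⟨v, h⟩).1 := by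
    intro v h; simp only [M]; rw [dif_pos h]
  have e2 : ∀ v, ¬ φ v = true → M v = Equiv.swap a b v := by
    intro v h; simp only [M]; rw [dif_neg h]
  have ha : ¬ φ a = true := by rw [hφ]; exact fun h => h.1 rfl
  have hb : ¬ φ b = true := by rw [hφ]; exact fun h => h.2 rfl
  have hMa : M a = b := by rw [e2 a ha, Equiv.swap_apply_left]
  have hMb : M b = a := by rw [e2 b hb, Equiv.swap_apply_right]
  have hM : PM M := by
    constructor
    · intro v
      by_cases h : φ v = true
      · have h1 : φ (M v) = true := by rw [e1 v h]; exact (M' ⟨v, h⟩).2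
        rw [e1 _ h1]
        have h2 : (⟨M v, h1⟩ : {v // φ v = true}) = M' ⟨v, h⟩ := Subtype.ext (e1 v h)
        rw [h2, hM'.1]
      · have h1 : φ v = false := by simpa using h
        rcases (hφ' v).1 h1 with h3 | h3
        · rw [h3, hMa, hMb]
        · rw [h3, hMb, hMa]
    · intro v
      by_cases h : φ v = true
      · rw [e1 v h]
        exact fun h' => hM'.2 ⟨v, h⟩ (Subtype.ext h')
      · have h1 : φ v = false := by simpa using h
        rcases (hφ' v).1 h1 with h3 | h3
        · rw [h3, hMa]; exact hab.symm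
        · rw [h3, hMb]; exact hab
  refine ⟨M, hM, hMa, fun x => e1 x.1 x.2, ?_⟩
  have r1 : ∀ x y, (rel L (Equiv.swap a b)).r x y → (rel L M).r x y := by
    intro x y hxy
    refine rel_le_of (rel L M) (rel_L _ _) ?_ hxy
    intro z
    by_cases h : φ z = true
    · rw [hφ] at h
      have h1 : Equiv.swap a b z = z := Equiv.swap_apply_of_ne_of_ne h.1 h.2
      show (rel L M).r z (Equiv.swap a b z)
      rw [h1]
    · rw [← e2 z h]
      exact rel_M _ _ z
  have r2 : ∀ x y : {v // φ v = true}, (rel L M).r x.1 y.1 := by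
    intro x y
    refine rel_le_of (Setoid.comap Subtype.val (rel L M)) ?_ ?_ (hc x y)
    · intro z
      exact r1 _ _ (hs z)
    · intro z
      change (rel L M).r z.1 (M' z).1
      rw [← e1 z.1 z.2]
      exact rel_M _ _ _
  have r3 : ∀ v, ∃ w : {v // φ v = true}, (rel L M).r v w.1 := by
    intro v
    by_cases h : φ v = true
    · exact ⟨⟨v, h⟩, rel_refl _ _ _⟩
    · have h1 : φ v = false := by simpa using h
      rcases (hφ' v).1 h1 with h3 | h3
      · rw [h3]
        exact ⟨⟨L a, (hφ _).2 ⟨hL.2 a, hLab⟩⟩, rel_L _ _ _⟩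
      · rw [h3]
        refine ⟨⟨L b, (hφ _).2 ⟨?_, hL.2 b⟩⟩, rel_L _ _ _⟩
        intro h4
        apply hLab
        rw [← h4, hL.1]
  intro x y
  obtain ⟨x', hx'⟩ := r3 x
  obtain ⟨y', hy'⟩ := r3 y
  exact rel_trans hx' (rel_trans (r2 x' y') (rel_symm hy'))

/-- eight against six points: a pair inside the larger side, and six pairs between the sides that
avoid a given matching -/
theorem cross14 {V : Type} [Fintype V] [DecidableEq V] (A : Finset V) (hA : A.card = 8)
    (hB : Aᶜ.card = 6) {a b : V} (ha : a ∈ A) (hb : b ∈ A) (hab : a ≠ b) (g : V → V)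
    (hg : ∀ v ∈ A, v ≠ a → v ≠ b → g v ∉ A)
    (hinj : ∀ v ∈ A, v ≠ a → v ≠ b → ∀ w ∈ A, w ≠ a → w ≠ b → g v = g w → v = w)
    {L : V → V} (hL : PM L) (hLab : L a ≠ b) :
    ∃ M : V → V, PM M ∧ M a = b ∧ (∀ v, v ≠ a → v ≠ b → (M v ∈ A ↔ v ∉ A)) ∧
      (∀ v ∈ A, v ≠ a → v ≠ b → M v ≠ g v) ∧ Connected L M := by
  obtain ⟨L', hL', hc⟩ := contract hL hab hLab
  have hφ : ∀ v : V, decide (v ≠ a ∧ v ≠ b) = true ↔ v ≠ a ∧ v ≠ b :=
    fun v => decide_eq_true_iff
  let A' : Finset {v // decide (v ≠ a ∧ v ≠ b) = true} := Finset.univ.filter (fun v => v.1 ∈ A)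
  have hA' : ∀ v, v ∈ A' ↔ v.1 ∈ A := by
    intro v; simp only [A', Finset.mem_filter, Finset.mem_univ, true_and]
  have k1 : A'.card = 6 := by
    have e : A'.map ⟨Subtype.val, Subtype.val_injective⟩ = (A.erase a).erase b := by
      ext v
      rw [Finset.mem_map, Finset.mem_erase, Finset.mem_erase]
      constructor
      · rintro ⟨x, hx, rfl⟩
        have h1 := (hφ _).1 x.2
        exact ⟨h1.2, h1.1, (hA' x).1 hx⟩
      · rintro ⟨h1, h2, h3⟩
        exact ⟨⟨v, (hφ v).2 ⟨h2, h1⟩⟩, (hA' _).2 h3, rfl⟩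
    have e2 := congrArg Finset.card e
    rw [Finset.card_map, Finset.card_erase_of_mem (Finset.mem_erase.2 ⟨hab.symm, hb⟩),
      Finset.card_erase_of_mem ha, hA] at e2
    exact e2
  have k2 : A'ᶜ.card = 6 := by
    have e : A'ᶜ.map ⟨Subtype.val, Subtype.val_injective⟩ = Aᶜ := by
      ext v
      rw [Finset.mem_map, Finset.mem_compl]
      constructor
      · rintro ⟨x, hx, rfl⟩
        rw [Finset.mem_compl, hA'] at hx
        exact hx
      · intro h1
        refine ⟨⟨v, (hφ v).2 ⟨?_, ?_⟩⟩, ?_, rfl⟩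
        · rintro rfl; exact h1 ha
        · rintro rfl; exact h1 hb
        · rw [Finset.mem_compl, hA']; exact h1
    have e2 := congrArg Finset.card e
    rw [Finset.card_map, hB] at e2
    exact e2
  have hgW : ∀ v : {v // decide (v ≠ a ∧ v ≠ b) = true}, v ∈ A' →
      decide (g v.1 ≠ a ∧ g v.1 ≠ b) = true := by
    intro v hv
    have h1 := (hφ _).1 v.2
    have h2 := hg v.1 ((hA' v).1 hv) h1.1 h1.2
    rw [hφ]
    exact ⟨fun h => h2 (by rw [h]; exact ha), fun h => h2 (by rw [h]; exact hb)⟩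
  obtain ⟨M', m1, m2, m3, m4⟩ := cross A' k1 k2
    (fun v => if h : v ∈ A' then ⟨g v.1, hgW v h⟩ else v) (by
      intro v hv
      rw [dif_pos hv, hA']
      have h1 := (hφ _).1 v.2
      exact hg v.1 ((hA' v).1 hv) h1.1 h1.2) (by
      intro v hv w hw h
      simp only [dif_pos hv, dif_pos hw] at h
      have h1 := (hφ _).1 v.2
      have h2 := (hφ _).1 w.2
      exact Subtype.ext (hinj v.1 ((hA' v).1 hv) h1.1 h1.2 w.1 ((hA' w).1 hw) h2.1 h2.2
        (congrArg Subtype.val h))) hL'
  obtain ⟨M, n1, n2, n3, n4⟩ := hc M' m1 m4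
  refine ⟨M, n1, n2, ?_, ?_, n4⟩
  · intro v hva hvb
    have h1 := n3 ⟨v, (hφ v).2 ⟨hva, hvb⟩⟩
    have h2 := m2 ⟨v, (hφ v).2 ⟨hva, hvb⟩⟩
    rw [hA', hA', ← h1] at h2
    exact h2
  · intro v hv hva hvb h
    have h1 := n3 ⟨v, (hφ v).2 ⟨hva, hvb⟩⟩
    have h0 : (⟨v, (hφ v).2 ⟨hva, hvb⟩⟩ : {v // decide (v ≠ a ∧ v ≠ b) = true}) ∈ A' :=
      (hA' _).2 hv
    have h2 := m3 _ h0
    rw [dif_pos h0] at h2
    apply h2
    apply Subtype.ext
    rw [← h1]
    exact h

theorem SV14 (h8 : SV 8 4) (h6 : SV 6 4) : SV 14 6 := by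
  classical
  intro V _ L hV hL
  obtain ⟨A, hA, hx⟩ := exists_set (fun i : Fin 4 => L (Fin.castLE (by norm_num) i))
    (fun i => hL _) 8 (by norm_num) (by omega)
  have hB : Aᶜ.card = 6 := by rw [Finset.card_compl]; omega
  obtain ⟨τ, t1, t2, t3, t4⟩ := split A (fun i : Fin 4 => L (Fin.castLE (by norm_num) i))
    (fun i => hL _) (by rw [hA]; exact h8) (by rw [hB]; exact h6) (by rw [hA]; decide)
    (by rw [hB]; decide) hx
  obtain ⟨a, ha⟩ : A.Nonempty := by rw [← Finset.card_pos]; omega
  obtain ⟨b, hb, hb'⟩ : ∃ b ∈ A, b ∉ ({a, τ 0 a, τ 1 a, τ 2 a, τ 3 a, L 4 a} : Finset V) :=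
    Finset.exists_mem_notMem_of_card_lt_card (lt_of_le_of_lt Finset.card_le_six (by omega))
  obtain ⟨c, hc, hc'⟩ : ∃ c ∈ A, c ∉ (insert b {a, τ 0 a, τ 1 a, τ 2 a, τ 3 a, L 5 a} :
      Finset V) :=
    Finset.exists_mem_notMem_of_card_lt_card (lt_of_le_of_lt
      ((Finset.card_insert_le _ _).trans (Nat.succ_le_succ Finset.card_le_six)) (by omega))
  simp only [Finset.mem_insert, Finset.mem_singleton, not_or] at hb' hc'
  obtain ⟨b1, b2, b3, b4, b5, b6⟩ := hb'
  obtain ⟨c0, c1, c2, c3, c4, c5, c6⟩ := hc'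
  obtain ⟨g, g1, g2⟩ : ∃ g : V → V, (∀ v ∈ A, v ≠ a → v ≠ b → g v ∉ A) ∧
      ∀ v ∈ A, v ≠ a → v ≠ b → ∀ w ∈ A, w ≠ a → w ≠ b → g v = g w → v = w := by
    have hcard : ((A.erase a).erase b).card = 6 := by
      rw [Finset.card_erase_of_mem (Finset.mem_erase.2 ⟨b1, hb⟩), Finset.card_erase_of_mem ha, hA]
    have h1 : Fintype.card ((A.erase a).erase b) ≤ Fintype.card ((Aᶜ : Finset V) : Type) := by
      rw [Fintype.card_coe, Fintype.card_coe, hcard, hB]
    obtain ⟨f⟩ := Function.Embedding.nonempty_of_card_le h1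
    have hm : ∀ v, v ∈ A → v ≠ a → v ≠ b → v ∈ (A.erase a).erase b := by
      intro v h1 h2 h3
      exact Finset.mem_erase.2 ⟨h3, Finset.mem_erase.2 ⟨h2, h1⟩⟩
    refine ⟨fun v => if h : v ∈ (A.erase a).erase b then (f ⟨v, h⟩ : V) else v, ?_, ?_⟩
    · intro v h1 h2 h3
      simp only [dif_pos (hm v h1 h2 h3)]
      exact Finset.mem_compl.1 (f _).2
    · intro v h1 h2 h3 w h4 h5 h6 h
      simp only [dif_pos (hm v h1 h2 h3), dif_pos (hm w h4 h5 h6)] at h
      have := f.injective (Subtype.ext h)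
      exact congrArg Subtype.val this
  obtain ⟨M, p1, p2, p3, p4, p5⟩ := cross14 A hA hB ha hb (Ne.symm b1) g g1 g2 (hL 4)
    (Ne.symm b6)
  have pb : M b = a := by rw [← p2, p1.1]
  have pin : ∀ v w, M v = M w → v = w := fun v w h => by rw [← p1.1 v, h, p1.1 w]
  have pA : ∀ v, v ∈ A → v ≠ a → v ≠ b → M v ∉ A := fun v h1 h2 h3 h4 => (p3 v h2 h3).1 h4 h1
  obtain ⟨N, q1, q2, q3, q4, q5⟩ := cross14 A hA hB ha hc (Ne.symm c1)
    (fun v => if v = b then M c else M v) (by
      intro v h1 h2 h3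
      by_cases h : v = b
      · rw [if_pos h]; exact pA c hc c1 c0
      · rw [if_neg h]; exact pA v h1 h2 h) (by
      intro v h1 h2 h3 w h4 h5 h6 h
      by_cases hv : v = b <;> by_cases hw : w = b
      · rw [hv, hw]
      · simp only [if_pos hv, if_neg hw] at h
        exact absurd (pin _ _ h).symm h6
      · simp only [if_neg hv, if_pos hw] at h
        exact absurd (pin _ _ h) h3
      · simp only [if_neg hv, if_neg hw] at h
        exact pin _ _ h) (hL 5) (Ne.symm c6)
  have qc : N c = a := by rw [← q2, q1.1]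
  have hMN0 : ∀ v ∈ A, M v ≠ N v := by
    intro v hv
    by_cases h1 : v = a
    · rw [h1, p2, q2]; exact Ne.symm c0
    · by_cases h2 : v = b
      · rw [h2, pb]
        intro h
        have h3 := (q3 b b1 (Ne.symm c0)).1 (by rw [← h]; exact ha)
        exact h3 hb
      · by_cases h3 : v = c
        · rw [h3, qc]
          intro h
          exact pA c hc c1 c0 (by rw [h]; exact ha)
        · have h4 := q4 v hv h1 h3
          simp only [if_neg h2] at h4
          exact h4.symm
  have hMB : ∀ v, v ∉ A → M v ∈ A := by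
    intro v hv
    exact (p3 v (fun h => hv (h ▸ ha)) (fun h => hv (h ▸ hb))).2 hv
  have hMN : ∀ v, M v ≠ N v := by
    intro v h
    by_cases hv : v ∈ A
    · exact hMN0 v hv h
    · have h2 : M (M v) = N (M v) := by rw [p1.1, h, q1.1]
      exact hMN0 _ (hMB v hv) h2
  have hb2 : ∀ i, τ i a ≠ b := by
    intro i
    fin_cases i
    · exact Ne.symm b2
    · exact Ne.symm b3
    · exact Ne.symm b4
    · exact Ne.symm b5
  have hc2 : ∀ i, τ i a ≠ c := by
    intro i
    fin_cases i
    · exact Ne.symm c2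
    · exact Ne.symm c3
    · exact Ne.symm c4
    · exact Ne.symm c5
  have hτM : ∀ i v, τ i v ≠ M v := by
    intro i v h
    by_cases h1 : v = a
    · rw [h1, p2] at h; exact hb2 i h
    · by_cases h2 : v = b
      · rw [h2, pb] at h
        apply hb2 i
        rw [← h, (t1 i).1]
      · have h3 := t4 i v
        rw [h, p3 v h1 h2] at h3
        exact iff_not_self h3.symm
  have hτN : ∀ i v, τ i v ≠ N v := by
    intro i v h
    by_cases h1 : v = a
    · rw [h1, q2] at h; exact hc2 i h
    · by_cases h2 : v = c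
      · rw [h2, qc] at h
        apply hc2 i
        rw [← h, (t1 i).1]
      · have h3 := t4 i v
        rw [h, q3 v h1 h2] at h3
        exact iff_not_self h3.symm
  refine ⟨![τ 0, τ 1, τ 2, τ 3, M, N], ?_, ?_, ?_⟩
  · intro i
    fin_cases i
    · exact t1 0
    · exact t1 1
    · exact t1 2
    · exact t1 3
    · exact p1
    · exact q1
  · intro i j hij v
    fin_cases i <;> fin_cases j <;> first
      | exact absurd rfl hij
      | exact t2 _ _ (by decide) v
      | exact hτM _ v
      | exact hτN _ v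
      | exact (hτM _ v).symm
      | exact (hτN _ v).symm
      | exact hMN v
      | exact (hMN v).symm
  · intro i
    fin_cases i
    · exact t3 0
    · exact t3 1
    · exact t3 2
    · exact t3 3
    · exact p5
    · exact q5

end Pool.Agent.Lib.MP_fe131b_co.F4
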