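import Pool.Agent.Lib.MP_fe131b_co.Final

/-!
Perfect matchings of `Fin n`, coded by natural numbers in base 16: a small engine whose checks are
evaluated by the kernel.
-/

set_option autoImplicit false

namespace Pool.Agent.Lib.MP_fe131b_co.F4

open Finset Function

/-- the `x`-th digit in base 16 -/
def pt (c x : ℕ) : ℕ := Nat.land (Nat.shiftRight c (Nat.mul 4 x)) 15

/-- evaluate `n` first -/
def force {β : Type} (n : ℕ) (k : ℕ → β) : β :=
  Nat.rec (motive := fun _ => β) (k 0) (fun m _ => k (Nat.succ m)) n

theorem force_eq {β : Type} (n : ℕ) (k : ℕ → β) : force n k = k n := by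
  cases n <;> rfl

theorem pt_eq (c x : ℕ) : pt c x = c / 16 ^ x % 16 := by
  have h1 : pt c x = (c >>> (4 * x)) &&& (2 ^ 4 - 1) := rfl
  rw [h1, Nat.shiftRight_eq_div_pow, Nat.and_two_pow_sub_one_eq_mod, pow_mul]
  norm_num

/-- all `k < n` -/
def allN (n : ℕ) (p : ℕ → Bool) : Bool :=
  Nat.rec (motive := fun _ => Bool) true (fun k ih => and (p k) ih) n

theorem allN_iff (n : ℕ) (p : ℕ → Bool) : allN n p = true ↔ ∀ k < n, p k = true := by
  induction n with
  | zero => simp [allN]
  | succ n ih =>
    have h : allN (n + 1) p = (p n && allN n p) := rfl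
    rw [h, Bool.and_eq_true, ih]
    constructor
    · rintro ⟨h1, h2⟩ k hk
      rcases Nat.lt_succ_iff_lt_or_eq.1 hk with h3 | h3
      · exact h2 k h3
      · rw [h3]; exact h1
    · intro h1
      exact ⟨h1 n (Nat.lt_succ_self n), fun k hk => h1 k (Nat.lt_succ_of_lt hk)⟩

/-- the `i`-th bit -/
def tb (c i : ℕ) : Bool := Nat.beq (Nat.land (Nat.shiftRight c i) 1) 1

theorem tb_eq (c i : ℕ) : tb c i = c.testBit i := by
  have h1 : tb c i = Nat.beq ((c >>> i) &&& 1) 1 := rfl
  rw [h1, Nat.testBit_eq_decide_div_mod_eq, Nat.shiftRight_eq_div_pow, Nat.and_one_is_mod]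
  rcases Nat.mod_two_eq_zero_or_one (c / 2 ^ i) with h | h <;> rw [h] <;> rfl

/-! ### Hamiltonicity -/

/-- the walk along the union of two matchings, collecting the visited points -/
def walk (l m : ℕ) (f : ℕ) : ℕ → ℕ → ℕ :=
  Nat.rec (motive := fun _ => ℕ → ℕ → ℕ) (fun _ s => s)
    (fun _ ih x s => force (pt m x) fun y => force (pt l y) fun z =>
      force (Nat.lor s (Nat.lor (Nat.shiftLeft 1 x) (Nat.shiftLeft 1 y))) fun s' => ih z s') f

theorem walk_succ (l m f x s : ℕ) : walk l m (f + 1) x s =
    walk l m f (pt l (pt m x)) (s ||| (1 <<< x ||| 1 <<< (pt m x))) := by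
  have h1 : walk l m (f + 1) x s = force (pt m x) fun y => force (pt l y) fun z =>
      force (s ||| (1 <<< x ||| 1 <<< y)) fun s' => walk l m f z s' := rfl
  rw [h1, force_eq, force_eq, force_eq]

/-- the union of the matchings with codes `l`, `m` is a Hamilton cycle -/
def ham (n l m : ℕ) : Bool :=
  Nat.beq (walk l m (Nat.div n 2) 0 0) (Nat.pred (Nat.pow 2 n))

/-- `c` is the code of the function `M` -/
def Rep (n : ℕ) (c : ℕ) (M : Fin n → Fin n) : Prop := ∀ x : Fin n, pt c x = (M x : ℕ)

theorem walk_sound {n : ℕ} {l m : ℕ} {L M : Fin n → Fin n} (hl : Rep n l L) (hm : Rep n m M)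
    (o : Fin n) : ∀ (f : ℕ) (x : Fin n) (s : ℕ), (rel L M).r o x → ∀ j,
      (walk l m f x s).testBit j = true →
      s.testBit j = true ∨ ∃ h : j < n, (rel L M).r o ⟨j, h⟩ := by
  intro f
  induction f with
  | zero => intro x s _ j hj; exact Or.inl hj
  | succ f ih =>
    intro x s hx j hj
    rw [walk_succ, hm x, hl (M x)] at hj
    have h1 : (rel L M).r o (M x) := rel_trans hx (rel_M _ _ x)
    have h2 : (rel L M).r o (L (M x)) := rel_trans h1 (rel_L _ _ _)
    rcases ih (L (M x)) _ h2 j hj with h | h
    · rw [Nat.testBit_or, Nat.testBit_or, Bool.or_eq_true, Bool.or_eq_true] at h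
      rcases h with h | h | h
      · exact Or.inl h
      · right
        rw [Nat.one_shiftLeft, Nat.testBit_two_pow] at h
        have h3 : (x : ℕ) = j := of_decide_eq_true h
        subst h3
        exact ⟨x.2, hx⟩
      · right
        rw [Nat.one_shiftLeft, Nat.testBit_two_pow] at h
        have h3 : (M x : ℕ) = j := of_decide_eq_true h
        subst h3
        exact ⟨(M x).2, h1⟩
    · exact Or.inr h

theorem ham_sound {n : ℕ} (hn : 0 < n) {l m : ℕ} {L M : Fin n → Fin n} (hl : Rep n l L)
    (hm : Rep n m M) (h : ham n l m = true) : Connected L M := by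
  have h1 : walk l m (n / 2) 0 0 = 2 ^ n - 1 := Nat.eq_of_beq_eq_true h
  let o : Fin n := ⟨0, hn⟩
  have key : ∀ j : Fin n, (rel L M).r o j := by
    intro j
    have h2 : (walk l m (n / 2) 0 0).testBit j = true := by
      rw [h1, Nat.testBit_two_pow_sub_one]
      exact decide_eq_true j.2
    rcases walk_sound hl hm o (n / 2) o 0 (rel_refl _ _ _) j h2 with h | ⟨h, h'⟩
    · simp at h
    · exact h'
  intro x y
  exact rel_trans (rel_symm (key x)) (key y)

/-! ### Enumeration of the perfect matchings -/

/-- the codes of all perfect matchings of the points of a list -/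
def pmGen : ℕ → List ℕ → ℕ → List ℕ
  | 0, _, acc => [acc]
  | _ + 1, [], acc => [acc]
  | f + 1, a :: r, acc =>
    r.flatMap (fun b => pmGen f (r.erase b) (acc + b * 16 ^ a + a * 16 ^ b))

theorem pmGen_complete (M : ℕ → ℕ) : ∀ (f : ℕ) (l : List ℕ) (acc : ℕ), l.Nodup →
    (∀ x ∈ l, M x ∈ l ∧ M (M x) = x ∧ M x ≠ x) → l.length ≤ 2 * f →
    acc + (l.map (fun x => M x * 16 ^ x)).sum ∈ pmGen f l acc := by
  intro f
  induction f with
  | zero =>
    intro l acc _ _ hl
    have : l = [] := List.length_eq_zero_iff.1 (by omega)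
    subst this
    simp [pmGen]
  | succ f ih =>
    intro l acc hnd hM hl
    cases l with
    | nil => simp [pmGen]
    | cons a r =>
      obtain ⟨h1, h2, h3⟩ := hM a (by simp)
      rw [List.nodup_cons] at hnd
      have hb : M a ∈ r := by
        rcases List.mem_cons.1 h1 with h | h
        · exact absurd h h3
        · exact h
      have key := ih (r.erase (M a)) (acc + M a * 16 ^ a + a * 16 ^ (M a))
        (hnd.2.erase _) (by
          intro x hx
          have hx1 : x ≠ M a ∧ x ∈ r := (List.Nodup.mem_erase_iff hnd.2).1 hx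
          obtain ⟨g1, g2, g3⟩ := hM x (List.mem_cons_of_mem _ hx1.2)
          refine ⟨(List.Nodup.mem_erase_iff hnd.2).2 ⟨?_, ?_⟩, g2, g3⟩
          · intro h
            have : x = a := by rw [← g2, h, h2]
            rw [this] at hx1
            exact hnd.1 hx1.2
          · rcases List.mem_cons.1 g1 with h | h
            · exfalso
              apply hx1.1
              rw [← h, g2]
            · exact h) (by
          rw [List.length_erase_of_mem hb]
          have : (a :: r).length = r.length + 1 := rfl
          omega)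
      simp only [pmGen]
      rw [List.mem_flatMap]
      refine ⟨M a, hb, ?_⟩
      have e : acc + ((a :: r).map (fun x => M x * 16 ^ x)).sum =
          acc + M a * 16 ^ a + a * 16 ^ (M a) +
            ((r.erase (M a)).map (fun x => M x * 16 ^ x)).sum := by
        have e1 := List.sum_map_erase (fun x => M x * 16 ^ x) hb
        simp only [List.map_cons, List.sum_cons]
        rw [← e1, h2]
        ring
      rw [e]
      exact key

theorem digit_sum (f : ℕ → ℕ) (hf : ∀ x, f x < 16) : ∀ n,
    ((List.range n).map (fun x => f x * 16 ^ x)).sum < 16 ^ n ∧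
    ∀ x < n, ((List.range n).map (fun x => f x * 16 ^ x)).sum / 16 ^ x % 16 = f x := by
  intro n
  induction n with
  | zero => simp
  | succ n ih =>
    obtain ⟨ih1, ih2⟩ := ih
    have e : ((List.range (n + 1)).map (fun x => f x * 16 ^ x)).sum =
        ((List.range n).map (fun x => f x * 16 ^ x)).sum + f n * 16 ^ n := by
      rw [List.range_succ, List.map_append, List.sum_append]
      simp
    rw [e]
    set S := ((List.range n).map (fun x => f x * 16 ^ x)).sum
    have hfn := hf n
    constructor
    · calc S + f n * 16 ^ n < 16 ^ n + f n * 16 ^ n := by omega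
        _ = (f n + 1) * 16 ^ n := by ring
        _ ≤ 16 * 16 ^ n := Nat.mul_le_mul_right _ (by omega)
        _ = 16 ^ (n + 1) := by ring
    · intro x hx
      rcases Nat.lt_succ_iff_lt_or_eq.1 hx with h | h
      · have e2 : f n * 16 ^ n = 16 ^ x * (16 * (f n * 16 ^ (n - x - 1))) := by
          have : n = x + 1 + (n - x - 1) := by omega
          conv_lhs => rw [this, pow_add, pow_add]
          have e3 : f (x + 1 + (n - x - 1)) = f n := by rw [← this]
          rw [e3]
          ring
        rw [e2, Nat.add_mul_div_left _ _ (by positivity), Nat.add_mul_mod_self_left]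
        exact ih2 x h
      · subst h
        rw [Nat.add_mul_div_right _ _ (by positivity), Nat.div_eq_of_lt ih1, Nat.zero_add,
          Nat.mod_eq_of_lt hfn]

/-- every perfect matching of `Fin n` has a code in the list -/
theorem exists_code {n : ℕ} (hn : n ≤ 16) (heven : n % 2 = 0) {M : Fin n → Fin n} (hM : PM M) :
    ∃ c ∈ pmGen (n / 2) (List.range n) 0, Rep n c M := by
  let M' : ℕ → ℕ := fun x => if h : x < n then (M ⟨x, h⟩ : ℕ) else 0
  have hM' : ∀ (x : ℕ) (h : x < n), M' x = (M ⟨x, h⟩ : ℕ) := fun x h => by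
    simp only [M', dif_pos h]
  have h16 : ∀ x, M' x < 16 := by
    intro x
    by_cases h : x < n
    · rw [hM' x h]; exact lt_of_lt_of_le (M ⟨x, h⟩).2 hn
    · simp only [M', dif_neg h]; omega
  have hc := pmGen_complete M' (n / 2) (List.range n) 0 List.nodup_range (by
    intro x hx
    have hx' : x < n := List.mem_range.1 hx
    rw [hM' x hx']
    refine ⟨List.mem_range.2 (M ⟨x, hx'⟩).2, ?_, ?_⟩
    · rw [hM' _ (M ⟨x, hx'⟩).2]
      have := hM.1 ⟨x, hx'⟩
      rw [Fin.eta, this]
    · intro h
      exact hM.2 ⟨x, hx'⟩ (Fin.ext h)) (by rw [List.length_range]; omega)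
  refine ⟨_, hc, ?_⟩
  intro x
  rw [pt_eq, Nat.zero_add, (digit_sum M' h16 n).2 x x.2, hM' x x.2]

/-! ### Validity, conjugation, disjointness -/

/-- `c` is the code of a perfect matching of `Fin n` -/
def okPM (n c : ℕ) : Bool :=
  allN n fun x => and (Nat.blt (pt c x) n) (and (Nat.beq (pt c (pt c x)) x)
    (not (Nat.beq (pt c x) x)))

/-- the function with code `c` -/
def fn (n c : ℕ) : Fin n → Fin n := fun x => if h : pt c x < n then ⟨pt c x, h⟩ else x

theorem okPM_rep {n c : ℕ} (h : ∀ x < n, pt c x < n) : Rep n c (fn n c) := by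
  intro x
  unfold fn
  rw [dif_pos (h x x.2)]

theorem okPM_sound {n c : ℕ} (h : okPM n c = true) : PM (fn n c) ∧ Rep n c (fn n c) := by
  unfold okPM at h
  rw [allN_iff] at h
  have h' : ∀ x < n, pt c x < n ∧ pt c (pt c x) = x ∧ pt c x ≠ x := by
    intro x hx
    have h1 := h x hx
    rw [Bool.and_eq_true, Bool.and_eq_true] at h1
    obtain ⟨h1, h2, h3⟩ := h1
    refine ⟨?_, Nat.eq_of_beq_eq_true h2, ?_⟩
    · have : decide (pt c x < n) = true := by
        rw [← Nat.blt_eq] at *
        simpa using h1
      exact of_decide_eq_true this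
    · intro h4
      rw [h4] at h3
      simp at h3
  have hr := okPM_rep (fun x hx => (h' x hx).1)
  refine ⟨⟨?_, ?_⟩, hr⟩
  · intro x
    apply Fin.ext
    rw [← hr, ← hr]
    exact (h' x x.2).2.1
  · intro x hx
    have := congrArg Fin.val hx
    rw [← hr] at this
    exact (h' x x.2).2.2 this

/-- the two codes have no pair in common -/
def dj (n c c' : ℕ) : Bool := allN n fun x => not (Nat.beq (pt c x) (pt c' x))

theorem dj_sound {n c c' : ℕ} {M M' : Fin n → Fin n} (h : dj n c c' = true) (hM : Rep n c M)
    (hM' : Rep n c' M') (x : Fin n) : M x ≠ M' x := by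
  unfold dj at h
  rw [allN_iff] at h
  have h1 := h x x.2
  rw [hM x, hM' x] at h1
  intro h2
  rw [h2] at h1
  simp at h1

/-- `g` is the code of a permutation -/
def okPerm (n g : ℕ) : Bool :=
  and (allN n fun x => Nat.blt (pt g x) n)
    (allN n fun y => not (allN n fun x => not (Nat.beq (pt g x) y)))

theorem okPerm_sound {n g : ℕ} (h : okPerm n g = true) :
    ∃ e : Equiv.Perm (Fin n), ∀ x : Fin n, pt g x = (e x : ℕ) := by
  unfold okPerm at h
  rw [Bool.and_eq_true, allN_iff, allN_iff] at h
  obtain ⟨h1, h2⟩ := h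
  have h1' : ∀ x < n, pt g x < n := by
    intro x hx
    have := h1 x hx
    exact of_decide_eq_true (by rw [← Nat.blt_eq] at *; simpa using this)
  have hr := okPM_rep h1'
  have hs : Surjective (fn n g) := by
    intro y
    by_contra hne
    have h3 := h2 y y.2
    have h4 : allN n (fun x => not (Nat.beq (pt g x) y)) = true := by
      rw [allN_iff]
      intro x hx
      have h5 : pt g x ≠ y := by
        intro h6
        apply hne
        refine ⟨⟨x, hx⟩, Fin.ext ?_⟩
        rw [← hr]
        exact h6
      cases h7 : Nat.beq (pt g x) y with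
      | false => rfl
      | true => exact absurd (Nat.eq_of_beq_eq_true h7) h5
    rw [h4] at h3
    simp at h3
  have hb : Bijective (fn n g) := ⟨Finite.injective_iff_surjective.2 hs, hs⟩
  refine ⟨Equiv.ofBijective _ hb, fun x => ?_⟩
  rw [Equiv.ofBijective_apply]
  exact hr x

/-- `g` carries the function with code `c` to the function with code `c'` -/
def okConj (n g c c' : ℕ) : Bool :=
  allN n fun x => Nat.beq (pt c' (pt g x)) (pt g (pt c x))

theorem okConj_sound {n g c c' : ℕ} {e : Equiv.Perm (Fin n)} {M M' : Fin n → Fin n}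
    (he : ∀ x : Fin n, pt g x = (e x : ℕ)) (hM : Rep n c M) (hM' : Rep n c' M')
    (h : okConj n g c c' = true) : (fun w => e (M (e.symm w))) = M' := by
  unfold okConj at h
  rw [allN_iff] at h
  funext w
  have h1 := Nat.eq_of_beq_eq_true (h (e.symm w) (e.symm w).2)
  rw [he, hM, Equiv.apply_symm_apply, hM', he] at h1
  exact (Fin.ext h1).symm

end Pool.Agent.Lib.MP_fe131b_co.F4
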