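import Pool.Agent.Lib.MP_fe131b_co.F4.Eng

/-!
Tables of Hamiltonian pairs as bit masks, products of masks, and the covering check.
-/

set_option autoImplicit false

namespace Pool.Agent.Lib.MP_fe131b_co.F4

open Finset Function

/-- solvability for the labels `L` -/
def Sol {V : Type} {k : ℕ} (L : Fin k → V → V) : Prop :=
  ∃ M : Fin k → V → V, (∀ i, PM (M i)) ∧ Disj M ∧ ∀ i, Connected (L i) (M i)

theorem Sol.conj {V W : Type} {k : ℕ} (e : V ≃ W) {L : Fin k → V → V}
    (h : Sol (fun i w => e (L i (e.symm w)))) : Sol L := by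
  obtain ⟨M, h1, h2, h3⟩ := h
  refine ⟨fun i v => e.symm (M i (e v)), fun i => ?_, ?_, fun i => ?_⟩
  · exact PM_conj e.symm (h1 i)
  · intro i j hij v hv
    exact h2 i j hij (e v) (e.symm.injective hv)
  · have h4 := connected_conj e.symm (h3 i)
    have e1 : (fun w => e.symm ((fun w => e (L i (e.symm w))) (e.symm.symm w))) = L i := by
      funext w; simp
    rw [e1] at h4
    exact h4

/-! ### masks -/

def maskGo (p : ℕ → Bool) (xs : List ℕ) : ℕ → ℕ → ℕ :=
  List.rec (motive := fun _ => ℕ → ℕ → ℕ) (fun _ acc => acc)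
    (fun x _ ih w acc => force (cond (p x) (Nat.lor acc w) acc) fun a =>
      force (Nat.mul 2 w) fun w' => ih w' a) xs

theorem maskGo_cons (p : ℕ → Bool) (x : ℕ) (xs : List ℕ) (w acc : ℕ) :
    maskGo p (x :: xs) w acc = maskGo p xs (2 * w) (cond (p x) (acc ||| w) acc) := by
  have h : maskGo p (x :: xs) w acc = force (cond (p x) (acc ||| w) acc) fun a =>
      force (2 * w) fun w' => maskGo p xs w' a := rfl
  rw [h, force_eq, force_eq]

theorem maskGo_sound (p : ℕ → Bool) : ∀ (xs : List ℕ) (i acc j : ℕ),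
    (maskGo p xs (2 ^ i) acc).testBit j = true →
    acc.testBit j = true ∨ ∃ k, ∃ h : k < xs.length, j = i + k ∧ p xs[k] = true := by
  intro xs
  induction xs with
  | nil => intro i acc j h; exact Or.inl h
  | cons x xs ih =>
    intro i acc j h
    rw [maskGo_cons, ← pow_succ'] at h
    rcases ih (i + 1) _ j h with h1 | ⟨k, hk, hj, hp⟩
    · cases hpx : p x with
      | false => rw [hpx] at h1; exact Or.inl h1
      | true =>
        rw [hpx] at h1
        have h2 : (acc ||| 2 ^ i).testBit j = true := h1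
        rw [Nat.testBit_or, Bool.or_eq_true] at h2
        rcases h2 with h2 | h2
        · exact Or.inl h2
        · right
          rw [Nat.testBit_two_pow] at h2
          have h3 : i = j := of_decide_eq_true h2
          exact ⟨0, by simp, by omega, hpx⟩
    · right
      refine ⟨k + 1, by simp only [List.length_cons]; omega, by omega, ?_⟩
      simpa using hp

/-- the mask of a predicate on a list -/
def mask (p : ℕ → Bool) (xs : List ℕ) : ℕ := maskGo p xs 1 0

theorem mask_sound {p : ℕ → Bool} {xs : List ℕ} {j : ℕ} (h : (mask p xs).testBit j = true) :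
    ∃ h : j < xs.length, p xs[j] = true := by
  rcases maskGo_sound p xs 0 0 j h with h1 | ⟨k, hk, hj, hp⟩
  · simp at h1
  · have : j = k := by omega
    subst this
    exact ⟨hk, hp⟩

/-- row `i` of a table with rows of `w` bits -/
def row (T w i : ℕ) : ℕ := Nat.land (Nat.shiftRight T (Nat.mul w i)) (Nat.pred (Nat.pow 2 w))

theorem row_lt (T w i : ℕ) : row T w i < 2 ^ w := by
  have h : row T w i = (T >>> (w * i)) &&& (2 ^ w - 1) := rfl
  rw [h, Nat.and_two_pow_sub_one_eq_mod]
  exact Nat.mod_lt _ (by positivity)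

/-! ### products of masks -/

/-- spread the bits of a mask to distance `w` -/
def spr (w : ℕ) (n : ℕ) : ℕ → ℕ :=
  Nat.rec (motive := fun _ => ℕ → ℕ) (fun _ => 0)
    (fun _ ih b => Nat.add (Nat.mul (Nat.pow 2 w) (force (Nat.div b 2) ih)) (Nat.mod b 2)) n

theorem spr_succ (w n b : ℕ) : spr w (n + 1) b = 2 ^ w * spr w n (b / 2) + b % 2 := by
  have h : spr w (n + 1) b = 2 ^ w * (force (b / 2) (spr w n)) + b % 2 := rfl
  rw [h, force_eq]

theorem spr_mul {w g z : ℕ} (hg : g < 2 ^ w) (hz : z < w) : ∀ (n b y : ℕ),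
    (spr w n b * g).testBit (w * y + z) = true → b.testBit y = true ∧ g.testBit z = true := by
  intro n
  induction n with
  | zero =>
    intro b y h
    have : spr w 0 b = 0 := rfl
    rw [this, Nat.zero_mul] at h
    simp at h
  | succ n ih =>
    intro b y h
    have hb : b % 2 * g < 2 ^ w := by
      rcases Nat.mod_two_eq_zero_or_one b with h1 | h1 <;> rw [h1]
      · rw [Nat.zero_mul]; positivity
      · rw [Nat.one_mul]; exact hg
    have e : spr w (n + 1) b * g = 2 ^ w * (spr w n (b / 2) * g) + b % 2 * g := by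
      rw [spr_succ]; ring
    rw [e, Nat.testBit_two_pow_mul_add _ hb] at h
    cases y with
    | zero =>
      rw [if_pos (by omega)] at h
      rw [Nat.mul_zero, Nat.zero_add] at h
      rcases Nat.mod_two_eq_zero_or_one b with h1 | h1
      · rw [h1, Nat.zero_mul] at h
        simp at h
      · rw [h1, Nat.one_mul] at h
        refine ⟨?_, h⟩
        rw [Nat.testBit_zero, h1]
        rfl
    | succ y =>
      rw [if_neg (by rw [Nat.mul_succ]; omega)] at h
      have e2 : w * (y + 1) + z - w = w * y + z := by rw [Nat.mul_succ]; omega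
      rw [e2] at h
      have h3 := ih (b / 2) y h
      refine ⟨?_, h3.2⟩
      rw [Nat.testBit_succ]
      exact h3.1

/-- three labels are completed by three different ones of the four masks -/
def Tri (A B C D x y z : ℕ) : Prop :=
  ∃ a b c : Fin 4, a ≠ b ∧ a ≠ c ∧ b ≠ c ∧ (![A, B, C, D] a).testBit x = true ∧
    (![A, B, C, D] b).testBit y = true ∧ (![A, B, C, D] c).testBit z = true

/-- the mask of the pairs that are completed by two of three masks -/
def pair3 (SB SC SD B C D : ℕ) : ℕ :=
  Nat.lor (Nat.lor (Nat.mul SB (Nat.lor C D)) (Nat.mul SC (Nat.lor B D))) (Nat.mul SD (Nat.lor B C))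

/-- add the four entries of a quadruple of masks -/
def addQ {β : Type} (w : ℕ) (A B C D : ℕ) (Q : List (ℕ × ℕ)) (k : List (ℕ × ℕ) → β) : β :=
  force (spr w w A) fun SA => force (spr w w B) fun SB => force (spr w w C) fun SC =>
  force (spr w w D) fun SD =>
  force (pair3 SB SC SD B C D) fun pA => force (pair3 SA SC SD A C D) fun pB =>
  force (pair3 SA SB SD A B D) fun pC => force (pair3 SA SB SC A B C) fun pD =>
  k ((A, pA) :: (B, pB) :: (C, pC) :: (D, pD) :: Q)

/-- all pairs of a list of quadruples of indices -/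
def allQ {β : Type} (w T : ℕ) (qs : List (List ℕ)) :
    List (ℕ × ℕ) → (List (ℕ × ℕ) → β) → β :=
  List.rec (motive := fun _ => List (ℕ × ℕ) → (List (ℕ × ℕ) → β) → β) (fun Q k => k Q)
    (fun q _ ih Q k =>
      force (row T w (q.getD 0 0)) fun A => force (row T w (q.getD 1 0)) fun B =>
      force (row T w (q.getD 2 0)) fun C => force (row T w (q.getD 3 0)) fun D =>
      addQ w A B C D Q fun Q' => ih Q' k) qs

/-- the union of the masks of the entries whose first mask contains `x` -/
def orGo (x : ℕ) (Q : List (ℕ × ℕ)) : ℕ → ℕ :=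
  List.rec (motive := fun _ => ℕ → ℕ) (fun acc => acc)
    (fun e _ ih acc => cond (tb e.1 x) (force (Nat.lor acc e.2) ih) (ih acc)) Q

theorem orGo_cons (x : ℕ) (e : ℕ × ℕ) (Q : List (ℕ × ℕ)) (acc : ℕ) :
    orGo x (e :: Q) acc = cond (tb e.1 x) (orGo x Q (acc ||| e.2)) (orGo x Q acc) := by
  have h : orGo x (e :: Q) acc =
    cond (tb e.1 x) (force (acc ||| e.2) (orGo x Q)) (orGo x Q acc) := rfl
  rw [h, force_eq]

theorem orGo_sound (x : ℕ) : ∀ (Q : List (ℕ × ℕ)) (acc j : ℕ),
    (orGo x Q acc).testBit j = true →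
    acc.testBit j = true ∨ ∃ e ∈ Q, e.1.testBit x = true ∧ e.2.testBit j = true := by
  intro Q
  induction Q with
  | nil => intro acc j h; exact Or.inl h
  | cons e Q ih =>
    intro acc j h
    rw [orGo_cons] at h
    cases hx : tb e.1 x with
    | false =>
      rw [hx] at h
      rcases ih acc j h with h1 | ⟨e', h1, h2⟩
      · exact Or.inl h1
      · exact Or.inr ⟨e', List.mem_cons_of_mem _ h1, h2⟩
    | true =>
      rw [hx] at h
      rcases ih _ j h with h1 | ⟨e', h1, h2⟩
      · rw [Nat.testBit_or, Bool.or_eq_true] at h1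
        rcases h1 with h1 | h1
        · exact Or.inl h1
        · rw [tb_eq] at hx
          exact Or.inr ⟨e, by simp, hx, h1⟩
      · exact Or.inr ⟨e', List.mem_cons_of_mem _ h1, h2⟩

/-- the covering check: every triple of labels is completed by one of the quadruples -/
def cover (w T : ℕ) (qs : List (List ℕ)) : Bool :=
  allQ w T qs [] fun Q =>
    force (Nat.pred (Nat.pow 2 (Nat.mul w w))) fun full =>
      allN w fun x => Nat.beq (orGo x Q 0) full

theorem pair3_sound {w SB SC SD B C D : ℕ} {n : ℕ} (hSB : SB = spr w n B)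
    (hSC : SC = spr w n C) (hSD : SD = spr w n D) (hB : B < 2 ^ w) (hC : C < 2 ^ w)
    (hD : D < 2 ^ w) {y z : ℕ} (hz : z < w)
    (h : (pair3 SB SC SD B C D).testBit (w * y + z) = true) :
    (B.testBit y = true ∧ (C.testBit z = true ∨ D.testBit z = true)) ∨
    (C.testBit y = true ∧ (B.testBit z = true ∨ D.testBit z = true)) ∨
    (D.testBit y = true ∧ (B.testBit z = true ∨ C.testBit z = true)) := by
  have e : pair3 SB SC SD B C D = (SB * (C ||| D) ||| SC * (B ||| D)) ||| SD * (B ||| C) := rfl
  rw [e, Nat.testBit_or, Nat.testBit_or, Bool.or_eq_true, Bool.or_eq_true] at h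
  rcases h with (h | h) | h
  · left
    rw [hSB] at h
    have := spr_mul (Nat.or_lt_two_pow hC hD) hz _ _ _ h
    rw [Nat.testBit_or, Bool.or_eq_true] at this
    exact this
  · right; left
    rw [hSC] at h
    have := spr_mul (Nat.or_lt_two_pow hB hD) hz _ _ _ h
    rw [Nat.testBit_or, Bool.or_eq_true] at this
    exact this
  · right; right
    rw [hSD] at h
    have := spr_mul (Nat.or_lt_two_pow hB hC) hz _ _ _ h
    rw [Nat.testBit_or, Bool.or_eq_true] at this
    exact this

/-- what an entry of the list of pairs means -/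
def GoodE (w T : ℕ) (qs : List (List ℕ)) (e : ℕ × ℕ) : Prop :=
  ∀ x y z, z < w → e.1.testBit x = true → e.2.testBit (w * y + z) = true →
    ∃ q ∈ qs, Tri (row T w (q.getD 0 0)) (row T w (q.getD 1 0)) (row T w (q.getD 2 0))
      (row T w (q.getD 3 0)) x y z

theorem allQ_sound {β : Type} (w T : ℕ) (P : β → Prop) (all : List (List ℕ)) :
    ∀ (qs : List (List ℕ)) (Q : List (ℕ × ℕ)) (k : List (ℕ × ℕ) → β), (∀ q ∈ qs, q ∈ all) →
      (∀ e ∈ Q, GoodE w T all e) → P (allQ w T qs Q k) →
      ∃ Q' : List (ℕ × ℕ), (∀ e ∈ Q', GoodE w T all e) ∧ P (k Q') := by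
  intro qs
  induction qs with
  | nil => intro Q k _ hQ h; exact ⟨Q, hQ, h⟩
  | cons q qs ih =>
    intro Q k hall hQ h
    have e : allQ w T (q :: qs) Q k =
      force (row T w (q.getD 0 0)) fun A => force (row T w (q.getD 1 0)) fun B =>
      force (row T w (q.getD 2 0)) fun C => force (row T w (q.getD 3 0)) fun D =>
      addQ w A B C D Q fun Q' => allQ w T qs Q' k := rfl
    rw [e] at h
    simp only [force_eq, addQ] at h
    refine ih _ _ (fun q' hq' => hall q' (List.mem_cons_of_mem _ hq')) ?_ h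
    have hA := row_lt T w (q.getD 0 0)
    have hB := row_lt T w (q.getD 1 0)
    have hC := row_lt T w (q.getD 2 0)
    have hD := row_lt T w (q.getD 3 0)
    have hq := hall q (by simp)
    set A := row T w (q.getD 0 0) with hAdef
    set B := row T w (q.getD 1 0) with hBdef
    set C := row T w (q.getD 2 0) with hCdef
    set D := row T w (q.getD 3 0) with hDdef
    intro e he
    simp only [List.mem_cons] at he
    rcases he with rfl | rfl | rfl | rfl | he
    · intro x y z hz hx hyz
      refine ⟨q, hq, ?_⟩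
      rw [← hAdef, ← hBdef, ← hCdef, ← hDdef]
      rcases pair3_sound rfl rfl rfl hB hC hD hz hyz with
        ⟨h1, h2 | h2⟩ | ⟨h1, h2 | h2⟩ | ⟨h1, h2 | h2⟩
      · exact ⟨0, 1, 2, by decide, by decide, by decide, hx, h1, h2⟩
      · exact ⟨0, 1, 3, by decide, by decide, by decide, hx, h1, h2⟩
      · exact ⟨0, 2, 1, by decide, by decide, by decide, hx, h1, h2⟩
      · exact ⟨0, 2, 3, by decide, by decide, by decide, hx, h1, h2⟩
      · exact ⟨0, 3, 1, by decide, by decide, by decide, hx, h1, h2⟩
      · exact ⟨0, 3, 2, by decide, by decide, by decide, hx, h1, h2⟩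
    · intro x y z hz hx hyz
      refine ⟨q, hq, ?_⟩
      rw [← hAdef, ← hBdef, ← hCdef, ← hDdef]
      rcases pair3_sound rfl rfl rfl hA hC hD hz hyz with
        ⟨h1, h2 | h2⟩ | ⟨h1, h2 | h2⟩ | ⟨h1, h2 | h2⟩
      · exact ⟨1, 0, 2, by decide, by decide, by decide, hx, h1, h2⟩
      · exact ⟨1, 0, 3, by decide, by decide, by decide, hx, h1, h2⟩
      · exact ⟨1, 2, 0, by decide, by decide, by decide, hx, h1, h2⟩
      · exact ⟨1, 2, 3, by decide, by decide, by decide, hx, h1, h2⟩
      · exact ⟨1, 3, 0, by decide, by decide, by decide, hx, h1, h2⟩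
      · exact ⟨1, 3, 2, by decide, by decide, by decide, hx, h1, h2⟩
    · intro x y z hz hx hyz
      refine ⟨q, hq, ?_⟩
      rw [← hAdef, ← hBdef, ← hCdef, ← hDdef]
      rcases pair3_sound rfl rfl rfl hA hB hD hz hyz with
        ⟨h1, h2 | h2⟩ | ⟨h1, h2 | h2⟩ | ⟨h1, h2 | h2⟩
      · exact ⟨2, 0, 1, by decide, by decide, by decide, hx, h1, h2⟩
      · exact ⟨2, 0, 3, by decide, by decide, by decide, hx, h1, h2⟩
      · exact ⟨2, 1, 0, by decide, by decide, by decide, hx, h1, h2⟩
      · exact ⟨2, 1, 3, by decide, by decide, by decide, hx, h1, h2⟩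
      · exact ⟨2, 3, 0, by decide, by decide, by decide, hx, h1, h2⟩
      · exact ⟨2, 3, 1, by decide, by decide, by decide, hx, h1, h2⟩
    · intro x y z hz hx hyz
      refine ⟨q, hq, ?_⟩
      rw [← hAdef, ← hBdef, ← hCdef, ← hDdef]
      rcases pair3_sound rfl rfl rfl hA hB hC hz hyz with
        ⟨h1, h2 | h2⟩ | ⟨h1, h2 | h2⟩ | ⟨h1, h2 | h2⟩
      · exact ⟨3, 0, 1, by decide, by decide, by decide, hx, h1, h2⟩
      · exact ⟨3, 0, 2, by decide, by decide, by decide, hx, h1, h2⟩
      · exact ⟨3, 1, 0, by decide, by decide, by decide, hx, h1, h2⟩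
      · exact ⟨3, 1, 2, by decide, by decide, by decide, hx, h1, h2⟩
      · exact ⟨3, 2, 0, by decide, by decide, by decide, hx, h1, h2⟩
      · exact ⟨3, 2, 1, by decide, by decide, by decide, hx, h1, h2⟩
    · exact hQ e he

theorem cover_sound {w T : ℕ} {qs : List (List ℕ)} (h : cover w T qs = true) {x y z : ℕ}
    (hx : x < w) (hy : y < w) (hz : z < w) :
    ∃ q ∈ qs, Tri (row T w (q.getD 0 0)) (row T w (q.getD 1 0)) (row T w (q.getD 2 0))
      (row T w (q.getD 3 0)) x y z := by
  unfold cover at h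
  obtain ⟨Q, hQ, hc⟩ := allQ_sound w T (fun b => b = true) qs qs [] _ (fun q hq => hq)
    (fun e he => by simp at he) h
  simp only [force_eq] at hc
  rw [allN_iff] at hc
  have h1 := Nat.eq_of_beq_eq_true (hc x hx)
  have h2 : (orGo x Q 0).testBit (w * y + z) = true := by
    rw [h1]
    have e : Nat.pred (Nat.pow 2 (Nat.mul w w)) = 2 ^ (w * w) - 1 := rfl
    rw [e, Nat.testBit_two_pow_sub_one]
    apply decide_eq_true
    calc w * y + z < w * y + w := by omega
      _ = w * (y + 1) := by ring
      _ ≤ w * w := Nat.mul_le_mul_left _ hy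
  rcases orGo_sound x Q 0 _ h2 with h3 | ⟨e, he, h3, h4⟩
  · simp at h3
  · exact hQ e he x y z hz h3 h4

end Pool.Agent.Lib.MP_fe131b_co.F4
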