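import Pool.Agent.Lib.MP_fe131b_co.F4.Eng2

/-!
Tables of all perfect matchings of `Fin n`, and the check of one case of the covering.
-/

set_option autoImplicit false

namespace Pool.Agent.Lib.MP_fe131b_co.F4

open Finset Function

def tabGo (n w CW CT GT : ℕ) (all : List ℕ) (xs : List ℕ) : ℕ → Bool :=
  List.rec (motive := fun _ => ℕ → Bool) (fun _ => true)
    (fun c _ ih i => and (and (Nat.beq (row CT CW i) c) (and (okPM n c)
      (Nat.beq (row GT w i) (mask (fun l => ham n l c) all)))) (force (Nat.succ i) ih)) xs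

theorem tabGo_sound (n w CW CT GT : ℕ) (all : List ℕ) : ∀ (xs : List ℕ) (i : ℕ),
    tabGo n w CW CT GT all xs i = true → ∀ k, ∀ h : k < xs.length,
      row CT CW (i + k) = xs[k] ∧ okPM n xs[k] = true ∧
      row GT w (i + k) = mask (fun l => ham n l xs[k]) all := by
  intro xs
  induction xs with
  | nil => intro i _ k hk; simp at hk
  | cons c xs ih =>
    intro i h k hk
    have e : tabGo n w CW CT GT all (c :: xs) i =
      and (and (Nat.beq (row CT CW i) c) (and (okPM n c)
      (Nat.beq (row GT w i) (mask (fun l => ham n l c) all))))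
      (force (i + 1) (tabGo n w CW CT GT all xs)) := rfl
    rw [e, force_eq, Bool.and_eq_true, Bool.and_eq_true, Bool.and_eq_true] at h
    obtain ⟨⟨h1, h2, h3⟩, h4⟩ := h
    cases k with
    | zero =>
      exact ⟨Nat.eq_of_beq_eq_true h1, h2, Nat.eq_of_beq_eq_true h3⟩
    | succ k =>
      have h5 := ih (i + 1) h4 k (by simpa using hk)
      rw [Nat.add_right_comm, Nat.add_assoc] at h5
      simpa using h5

/-- a verified table -/
structure Tab (n w CW CT GT : ℕ) : Prop where
  pos : 0 < n
  code : ∀ M : Fin n → Fin n, PM M → ∃ i < w, Rep n (row CT CW i) M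
  pm : ∀ i < w, PM (fn n (row CT CW i)) ∧ Rep n (row CT CW i) (fn n (row CT CW i))
  hm : ∀ i < w, ∀ j, (row GT w i).testBit j = true →
    j < w ∧ ham n (row CT CW j) (row CT CW i) = true

theorem tab_of {n w CW CT GT : ℕ} {pms : List ℕ} (h0 : 0 < n) (h16 : n ≤ 16)
    (heven : n % 2 = 0) (hlen : pms.length = w) (hgen : pmGen (n / 2) (List.range n) 0 = pms)
    (h : tabGo n w CW CT GT pms pms 0 = true) : Tab n w CW CT GT := by
  have hs := tabGo_sound n w CW CT GT pms pms 0 h
  refine ⟨h0, ?_, ?_, ?_⟩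
  · intro M hM
    obtain ⟨c, hc, hr⟩ := exists_code h16 heven hM
    rw [hgen] at hc
    obtain ⟨k, hk, rfl⟩ := List.getElem_of_mem hc
    refine ⟨k, hlen ▸ hk, ?_⟩
    have := (hs k hk).1
    rw [Nat.zero_add] at this
    rw [this]
    exact hr
  · intro i hi
    rw [← hlen] at hi
    have h1 := hs i hi
    rw [Nat.zero_add] at h1
    rw [h1.1]
    exact okPM_sound h1.2.1
  · intro i hi j hj
    rw [← hlen] at hi
    have h1 := hs i hi
    rw [Nat.zero_add] at h1
    rw [h1.2.2] at hj
    obtain ⟨hj1, hj2⟩ := mask_sound hj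
    have h2 := hs j hj1
    rw [Nat.zero_add] at h2
    refine ⟨hlen ▸ hj1, ?_⟩
    rw [h2.1, h1.1]
    exact hj2

theorem sol_of_table {n w CW CT GT : ℕ} (T : Tab n w CW CT GT) {k : ℕ}
    (L : Fin k → Fin n → Fin n) (li s : Fin k → ℕ)
    (hli : ∀ i, Rep n (row CT CW (li i)) (L i)) (hs : ∀ i, s i < w)
    (hd : ∀ i j, i ≠ j → dj n (row CT CW (s i)) (row CT CW (s j)) = true)
    (hh : ∀ i, (row GT w (s i)).testBit (li i) = true) : Sol L := by
  refine ⟨fun i => fn n (row CT CW (s i)), fun i => (T.pm _ (hs i)).1, ?_, fun i => ?_⟩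
  · intro i j hij x
    exact dj_sound (hd i j hij) (T.pm _ (hs i)).2 (T.pm _ (hs j)).2 x
  · exact ham_sound T.pos (hli i) (T.pm _ (hs i)).2 (T.hm _ (hs i) _ (hh i)).2

/-! ### one case -/

/-- check of one partial solution: four free matchings, followed by the matchings of the labels
`hs` -/
def chkSol (n w CW CT GT : ℕ) (hs q : List ℕ) : Bool :=
  and (allN (Nat.add 4 hs.length) fun i => Nat.blt (q.getD i 0) w)
    (and (allN hs.length fun k => tb (row GT w (q.getD (Nat.add 4 k) 0)) (hs.getD k 0))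
      (allN (Nat.add 4 hs.length) fun j => force (row CT CW (q.getD j 0)) fun c =>
        allN j fun i => force (row CT CW (q.getD i 0)) fun c' => dj n c c'))

/-- check of one case -/
def chkCase (n w CW CT GT : ℕ) (hs : List ℕ) (qs : List (List ℕ)) : Bool :=
  and (qs.all fun q => chkSol n w CW CT GT hs q) (cover w GT qs)

theorem dj_symm {n c c' : ℕ} (h : dj n c c' = true) : dj n c' c = true := by
  unfold dj at h ⊢
  rw [allN_iff] at h ⊢
  intro k hk
  have h1 := h k hk
  cases h2 : Nat.beq (pt c' k) (pt c k) with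
  | false => rfl
  | true =>
    rw [Nat.eq_of_beq_eq_true h2] at h1
    simp at h1

theorem chkSol_sound {n w CW CT GT : ℕ} {hs q : List ℕ} (h : chkSol n w CW CT GT hs q = true) :
    (∀ i < 4 + hs.length, q.getD i 0 < w) ∧
    (∀ k < hs.length, (row GT w (q.getD (4 + k) 0)).testBit (hs.getD k 0) = true) ∧
    (∀ i < 4 + hs.length, ∀ j < 4 + hs.length, i ≠ j →
      dj n (row CT CW (q.getD i 0)) (row CT CW (q.getD j 0)) = true) := by
  unfold chkSol at h
  rw [Bool.and_eq_true, Bool.and_eq_true, allN_iff, allN_iff, allN_iff] at h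
  obtain ⟨h1, h2, h3⟩ := h
  have h4 : ∀ j < 4 + hs.length, ∀ i < j,
      dj n (row CT CW (q.getD j 0)) (row CT CW (q.getD i 0)) = true := by
    intro j hj i hi
    have h5 := h3 j hj
    rw [force_eq, allN_iff] at h5
    have h6 := h5 i hi
    rw [force_eq] at h6
    exact h6
  refine ⟨?_, ?_, ?_⟩
  · intro i hi
    have := h1 i hi
    exact of_decide_eq_true (by rw [← Nat.blt_eq] at *; simpa using this)
  · intro k hk
    have := h2 k hk
    rw [tb_eq] at this
    exact this
  · intro i hi j hj hij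
    rcases Nat.lt_or_gt_of_ne hij with h | h
    · exact dj_symm (h4 j hj i h)
    · exact h4 i hi j h

theorem chkCase_sound {n w CW CT GT : ℕ} (T : Tab n w CW CT GT) {hs : List ℕ}
    {qs : List (List ℕ)} (h : chkCase n w CW CT GT hs qs = true)
    (L : Fin (hs.length + 3) → Fin n → Fin n) (li : Fin (hs.length + 3) → ℕ)
    (hli : ∀ i, li i < w ∧ Rep n (row CT CW (li i)) (L i))
    (hhs : ∀ i : Fin (hs.length + 3), (i : ℕ) < hs.length → li i = hs.getD i 0) : Sol L := by
  unfold chkCase at h
  rw [Bool.and_eq_true] at h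
  obtain ⟨h1, h2⟩ := h
  let ix : Fin (hs.length + 3) := ⟨hs.length, by omega⟩
  let iy : Fin (hs.length + 3) := ⟨hs.length + 1, by omega⟩
  let iz : Fin (hs.length + 3) := ⟨hs.length + 2, by omega⟩
  obtain ⟨q, hq, a, b, c, hab, hac, hbc, hx, hy, hz⟩ :=
    cover_sound h2 (hli ix).1 (hli iy).1 (hli iz).1
  have h3 : chkSol n w CW CT GT hs q = true := List.all_eq_true.1 h1 q hq
  obtain ⟨g1, g2, g3⟩ := chkSol_sound h3
  have hrow : ∀ d : Fin 4, ![row GT w (q.getD 0 0), row GT w (q.getD 1 0),
      row GT w (q.getD 2 0), row GT w (q.getD 3 0)] d = row GT w (q.getD d 0) := by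
    intro d
    fin_cases d <;> rfl
  rw [hrow] at hx hy hz
  let σ : Fin (hs.length + 3) → ℕ := fun j =>
    if (j : ℕ) < hs.length then 4 + j else if (j : ℕ) = hs.length then (a : ℕ)
      else if (j : ℕ) = hs.length + 1 then (b : ℕ) else (c : ℕ)
  have hσ1 : ∀ j : Fin (hs.length + 3), (j : ℕ) < hs.length → σ j = 4 + j := fun j hj => by
    simp only [σ, if_pos hj]
  have hσx : ∀ j : Fin (hs.length + 3), (j : ℕ) = hs.length → σ j = a := fun j hj => by
    simp only [σ]
    rw [if_neg (by omega), if_pos hj]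
  have hσy : ∀ j : Fin (hs.length + 3), (j : ℕ) = hs.length + 1 → σ j = b := fun j hj => by
    simp only [σ]
    rw [if_neg (by omega), if_neg (by omega), if_pos hj]
  have hσz : ∀ j : Fin (hs.length + 3), (j : ℕ) = hs.length + 2 → σ j = c := fun j hj => by
    simp only [σ]
    rw [if_neg (by omega), if_neg (by omega), if_neg (by omega)]
  have hcases : ∀ j : Fin (hs.length + 3), (j : ℕ) < hs.length ∨ (j : ℕ) = hs.length ∨
      (j : ℕ) = hs.length + 1 ∨ (j : ℕ) = hs.length + 2 := by
    intro j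
    have := j.2
    omega
  have hab' : (a : ℕ) ≠ b := fun h => hab (Fin.ext h)
  have hac' : (a : ℕ) ≠ c := fun h => hac (Fin.ext h)
  have hbc' : (b : ℕ) ≠ c := fun h => hbc (Fin.ext h)
  have ha4 := a.2
  have hb4 := b.2
  have hc4 := c.2
  have hσlt : ∀ j, σ j < 4 + hs.length := by
    intro j
    rcases hcases j with hj | hj | hj | hj
    · rw [hσ1 j hj]; omega
    · rw [hσx j hj]; omega
    · rw [hσy j hj]; omega
    · rw [hσz j hj]; omega
  have hσinj : ∀ i j, i ≠ j → σ i ≠ σ j := by
    intro i j hij hh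
    have hij' : (i : ℕ) ≠ j := fun h => hij (Fin.ext h)
    rcases hcases i with hi | hi | hi | hi <;> rcases hcases j with hj | hj | hj | hj
    · rw [hσ1 i hi, hσ1 j hj] at hh; omega
    · rw [hσ1 i hi, hσx j hj] at hh; omega
    · rw [hσ1 i hi, hσy j hj] at hh; omega
    · rw [hσ1 i hi, hσz j hj] at hh; omega
    · rw [hσx i hi, hσ1 j hj] at hh; omega
    · omega
    · rw [hσx i hi, hσy j hj] at hh; omega
    · rw [hσx i hi, hσz j hj] at hh; omega
    · rw [hσy i hi, hσ1 j hj] at hh; omega
    · rw [hσy i hi, hσx j hj] at hh; omega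
    · omega
    · rw [hσy i hi, hσz j hj] at hh; omega
    · rw [hσz i hi, hσ1 j hj] at hh; omega
    · rw [hσz i hi, hσx j hj] at hh; omega
    · rw [hσz i hi, hσy j hj] at hh; omega
    · omega
  refine sol_of_table T L li (fun j => q.getD (σ j) 0) (fun i => (hli i).2)
    (fun i => g1 _ (hσlt i)) (fun i j hij => g3 _ (hσlt i) _ (hσlt j) (hσinj i j hij)) ?_
  intro j
  rcases hcases j with hj | hj | hj | hj
  · have e := hσ1 j hj
    show (row GT w (q.getD (σ j) 0)).testBit (li j) = true
    rw [e, hhs j hj]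
    exact g2 _ hj
  · have e := hσx j hj
    show (row GT w (q.getD (σ j) 0)).testBit (li j) = true
    rw [e]
    have : j = ix := Fin.ext hj
    rw [this]
    exact hx
  · have e := hσy j hj
    show (row GT w (q.getD (σ j) 0)).testBit (li j) = true
    rw [e]
    have : j = iy := Fin.ext hj
    rw [this]
    exact hy
  · have e := hσz j hj
    show (row GT w (q.getD (σ j) 0)).testBit (li j) = true
    rw [e]
    have : j = iz := Fin.ext hj
    rw [this]
    exact hz

end Pool.Agent.Lib.MP_fe131b_co.F4
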