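import Pool.Agent.Lib.MP_fe131b_co.F4.Eng3

/-!
Relabelling: every perfect matching is carried to a representative by a permutation that fixes
given matchings.
-/

set_option autoImplicit false

namespace Pool.Agent.Lib.MP_fe131b_co.F4

open Finset Function

def relGo (n w CW CT : ℕ) (fix : List ℕ) (xs : List (ℕ × ℕ)) : ℕ → Bool :=
  List.rec (motive := fun _ => ℕ → Bool) (fun _ => true)
    (fun e _ ih i => and (and (and (Nat.blt e.2 w) (okPerm n e.1))
      (and (fix.all fun f => force (row CT CW f) fun c => okConj n e.1 c c)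
        (force (row CT CW i) fun c => force (row CT CW e.2) fun c' => okConj n e.1 c c')))
      (force (Nat.succ i) ih)) xs

theorem relGo_sound (n w CW CT : ℕ) (fix : List ℕ) : ∀ (xs : List (ℕ × ℕ)) (i : ℕ),
    relGo n w CW CT fix xs i = true → ∀ k, ∀ h : k < xs.length,
      xs[k].2 < w ∧ okPerm n xs[k].1 = true ∧
      (∀ f ∈ fix, okConj n xs[k].1 (row CT CW f) (row CT CW f) = true) ∧
      okConj n xs[k].1 (row CT CW (i + k)) (row CT CW xs[k].2) = true := by
  intro xs
  induction xs with
  | nil => intro i _ k hk; simp at hk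
  | cons e xs ih =>
    intro i h k hk
    have e0 : relGo n w CW CT fix (e :: xs) i =
      and (and (and (Nat.blt e.2 w) (okPerm n e.1))
      (and (fix.all fun f => force (row CT CW f) fun c => okConj n e.1 c c)
        (force (row CT CW i) fun c => force (row CT CW e.2) fun c' => okConj n e.1 c c')))
      (force (i + 1) (relGo n w CW CT fix xs)) := rfl
    rw [e0, force_eq, Bool.and_eq_true, Bool.and_eq_true, Bool.and_eq_true, Bool.and_eq_true,
      force_eq, force_eq] at h
    obtain ⟨⟨⟨h1, h2⟩, h3, h4⟩, h5⟩ := h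
    cases k with
    | zero =>
      refine ⟨?_, h2, ?_, h4⟩
      · exact of_decide_eq_true (by rw [← Nat.blt_eq] at *; simpa using h1)
      · intro f hf
        have h6 := List.all_eq_true.1 h3 f hf
        rw [force_eq] at h6
        exact h6
    | succ k =>
      have h6 := ih (i + 1) h5 k (by simpa using hk)
      rw [Nat.add_right_comm, Nat.add_assoc] at h6
      simpa using h6

theorem relab_step {n w CW CT GT : ℕ} (T : Tab n w CW CT GT) {fix : List ℕ}
    {xs : List (ℕ × ℕ)} (hfix : ∀ f ∈ fix, f < w) (h : relGo n w CW CT fix xs 0 = true)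
    (hlen : xs.length = w) {M : Fin n → Fin n} (hM : PM M) :
    ∃ (e : Equiv.Perm (Fin n)) (r : ℕ), r < w ∧ (∃ g, (g, r) ∈ xs) ∧
      (∀ f ∈ fix, (fun x => e (fn n (row CT CW f) (e.symm x))) = fn n (row CT CW f)) ∧
      (fun x => e (M (e.symm x))) = fn n (row CT CW r) := by
  obtain ⟨i, hi, hr⟩ := T.code M hM
  rw [← hlen] at hi
  obtain ⟨h1, h2, h3, h4⟩ := relGo_sound n w CW CT fix xs 0 h i hi
  rw [Nat.zero_add] at h4
  obtain ⟨e, he⟩ := okPerm_sound h2
  refine ⟨e, xs[i].2, h1, ⟨xs[i].1, List.getElem_mem hi⟩, ?_, ?_⟩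
  · intro f hf
    exact okConj_sound he (T.pm f (hfix f hf)).2 (T.pm f (hfix f hf)).2 (h3 f hf)
  · exact okConj_sound he hr (T.pm _ h1).2 h4

end Pool.Agent.Lib.MP_fe131b_co.F4
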