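import Pool.Agent.Lib.MP_fe131b_co.F4.Eng4

/-!
Choosing the matchings one after the other: `Comp n r F` says that `r` further labels can always be
completed by matchings that avoid the matchings with codes in `F`.
-/

set_option autoImplicit false

namespace Pool.Agent.Lib.MP_fe131b_co.F4

open Finset Function

/-- `r` further labels can be completed, avoiding the matchings of `F` -/
def Comp (n r : ℕ) (F : List ℕ) : Prop :=
  ∀ L : Fin r → Fin n → Fin n, (∀ i, PM (L i)) → ∃ M : Fin r → Fin n → Fin n,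
    (∀ i, PM (M i)) ∧ Disj M ∧ (∀ i, Connected (L i) (M i)) ∧
    ∀ i (x : Fin n), ∀ c ∈ F, pt c x ≠ (M i x : ℕ)

/-- a candidate: a matching, a permutation and the forbidden list after relabelling -/
structure Cand where
  m : ℕ
  g : ℕ

/-- check of a candidate -/
def okCand (n : ℕ) (F F' : List ℕ) (e : Cand) : Bool :=
  and (and (okPM n e.m) (okPerm n e.g)) (and (F.all fun c => dj n c e.m)
    ((e.m :: F).all fun c => F'.any fun c' => okConj n e.g c c'))

theorem step_sound {n r : ℕ} {pms : List ℕ} (hn0 : 0 < n)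
    (hcode : ∀ M : Fin n → Fin n, PM M → ∃ c ∈ pms, Rep n c M)
    {F : List ℕ} {F' : Cand → List ℕ} {cands : List Cand}
    (hF : (cands.all fun e => (F' e).all (okPM n)) = true)
    (hc : (cands.all fun e => okCand n F (F' e) e) = true)
    (hall : (pms.all fun l => cands.any fun e => ham n l e.m) = true)
    (hF0 : F.all (okPM n) = true)
    (hnext : ∀ e ∈ cands, Comp n r (F' e)) : Comp n (r + 1) F := by
  intro L hL
  obtain ⟨l, hl, hrep⟩ := hcode (L 0) (hL 0)
  obtain ⟨e, he, hham⟩ := List.any_eq_true.1 (List.all_eq_true.1 hall l hl)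
  have h1 := List.all_eq_true.1 hc e he
  have hF0 : ∀ c ∈ F, okPM n c = true := List.all_eq_true.1 hF0
  have hF : ∀ c ∈ F' e, okPM n c = true := List.all_eq_true.1 (List.all_eq_true.1 hF e he)
  have hnext := hnext e he
  unfold okCand at h1
  rw [Bool.and_eq_true, Bool.and_eq_true, Bool.and_eq_true] at h1
  obtain ⟨⟨h2, h3⟩, h4, h5⟩ := h1
  obtain ⟨hpm, hmrep⟩ := okPM_sound h2
  obtain ⟨σ, hσ⟩ := okPerm_sound h3
  obtain ⟨M, g1, g2, g3, g4⟩ := hnext (fun i w => σ (L i.succ (σ.symm w)))
    (fun i => PM_conj σ (hL i.succ))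
  -- the matchings after pulling back
  have hpull : ∀ i, PM (fun w => σ.symm (M i (σ w))) := by
    intro i
    exact PM_conj σ.symm (g1 i)
  have havoid : ∀ c ∈ e.m :: F, okPM n c = true → ∀ (i : Fin r) (x : Fin n),
      pt c x ≠ (σ.symm (M i (σ x)) : ℕ) := by
    intro c hcm hok i x hx
    obtain ⟨c', hc', hconj⟩ := List.any_eq_true.1 (List.all_eq_true.1 h5 c hcm)
    have e1 := okConj_sound hσ (okPM_sound hok).2 (okPM_sound (hF c' hc')).2 hconj
    have e2 : fn n c' (σ x) = σ (fn n c x) := by
      rw [← e1]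
      simp
    have e3 := g4 i (σ x) c' hc'
    apply e3
    rw [(okPM_sound (hF c' hc')).2, e2]
    have e4 : fn n c x = σ.symm (M i (σ x)) := by
      apply Fin.ext
      rw [← (okPM_sound hok).2, hx]
    rw [e4, Equiv.apply_symm_apply]
  refine ⟨Fin.cons (fn n e.m) (fun i w => σ.symm (M i (σ w))), ?_, ?_, ?_, ?_⟩
  · intro i
    refine Fin.cases ?_ (fun i => ?_) i
    · exact hpm
    · exact hpull i
  · intro i j
    refine Fin.cases ?_ (fun i => ?_) i
    · refine Fin.cases (fun h => absurd rfl h) (fun j _ x => ?_) j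
      simp only [Fin.cons_zero, Fin.cons_succ]
      intro hx
      apply havoid e.m (by simp) h2 j x
      rw [hmrep, hx]
    · refine Fin.cases (fun _ x => ?_) (fun j hij x => ?_) j
      · simp only [Fin.cons_zero, Fin.cons_succ]
        intro hx
        apply havoid e.m (by simp) h2 i x
        rw [hmrep, ← hx]
      · simp only [Fin.cons_succ]
        intro hx
        exact g2 i j (fun h => hij (by rw [h])) (σ x) (σ.symm.injective hx)
  · intro i
    refine Fin.cases ?_ (fun i => ?_) i
    · exact ham_sound hn0 hrep hmrep hham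
    · simp only [Fin.cons_succ]
      have h6 := connected_conj σ.symm (g3 i)
      have e1 : (fun w => σ.symm ((fun w => σ (L i.succ (σ.symm w))) (σ.symm.symm w))) =
          L i.succ := by
        funext w; simp
      rw [e1] at h6
      exact h6
  · intro i x c hcF
    refine Fin.cases ?_ (fun i => ?_) i
    · simp only [Fin.cons_zero]
      intro hx
      have h7 := List.all_eq_true.1 h4 c hcF
      have h8 := dj_sound h7 (okPM_sound (hF0 c hcF)).2 hmrep x
      apply h8
      apply Fin.ext
      rw [← (okPM_sound (hF0 c hcF)).2, hx]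
    · simp only [Fin.cons_succ]
      exact havoid c (List.mem_cons_of_mem _ hcF) (hF0 c hcF) i x

/-! ### the last two labels -/

/-- the union of the rows with the given indices -/
def orRows (T w : ℕ) (js : List ℕ) : ℕ → ℕ :=
  List.rec (motive := fun _ => ℕ → ℕ) (fun acc => acc)
    (fun j _ ih acc => force (Nat.lor acc (row T w j)) ih) js

theorem orRows_sound (T w : ℕ) : ∀ (js : List ℕ) (acc k : ℕ),
    (orRows T w js acc).testBit k = true →
    acc.testBit k = true ∨ ∃ j ∈ js, (row T w j).testBit k = true := by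
  intro js
  induction js with
  | nil => intro acc k h; exact Or.inl h
  | cons j js ih =>
    intro acc k h
    have e : orRows T w (j :: js) acc = force (acc ||| row T w j) (orRows T w js) := rfl
    rw [e, force_eq] at h
    rcases ih _ k h with h1 | ⟨j', h1, h2⟩
    · rw [Nat.testBit_or, Bool.or_eq_true] at h1
      rcases h1 with h1 | h1
      · exact Or.inl h1
      · exact Or.inr ⟨j, by simp, h1⟩
    · exact Or.inr ⟨j', List.mem_cons_of_mem _ h1, h2⟩

/-- the entries of the last step -/
def rowQ {β : Type} (w T : ℕ) (S : List (ℕ × List ℕ)) :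
    List (ℕ × ℕ) → (List (ℕ × ℕ) → β) → β :=
  List.rec (motive := fun _ => List (ℕ × ℕ) → (List (ℕ × ℕ) → β) → β) (fun Q k => k Q)
    (fun e _ ih Q k => force (row T w e.1) fun A => force (orRows T w e.2 0) fun R =>
      ih ((A, R) :: Q) k) S

/-- what an entry means -/
def GoodR (w T : ℕ) (S : List (ℕ × List ℕ)) (e : ℕ × ℕ) : Prop :=
  ∀ x y, e.1.testBit x = true → e.2.testBit y = true →
    ∃ s ∈ S, ∃ j ∈ s.2, (row T w s.1).testBit x = true ∧ (row T w j).testBit y = true

theorem rowQ_sound {β : Type} (w T : ℕ) (P : β → Prop) (all : List (ℕ × List ℕ)) :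
    ∀ (S : List (ℕ × List ℕ)) (Q : List (ℕ × ℕ)) (k : List (ℕ × ℕ) → β), (∀ s ∈ S, s ∈ all) →
      (∀ e ∈ Q, GoodR w T all e) → P (rowQ w T S Q k) →
      ∃ Q' : List (ℕ × ℕ), (∀ e ∈ Q', GoodR w T all e) ∧ P (k Q') := by
  intro S
  induction S with
  | nil => intro Q k _ hQ h; exact ⟨Q, hQ, h⟩
  | cons s S ih =>
    intro Q k hall hQ h
    have e : rowQ w T (s :: S) Q k =
      force (row T w s.1) fun A => force (orRows T w s.2 0) fun R =>
        rowQ w T S ((A, R) :: Q) k := rfl
    rw [e] at h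
    simp only [force_eq] at h
    refine ih _ _ (fun s' hs' => hall s' (List.mem_cons_of_mem _ hs')) ?_ h
    intro e he
    rcases List.mem_cons.1 he with rfl | he
    · intro x y hx hy
      rcases orRows_sound T w s.2 0 y hy with h1 | ⟨j, hj, h1⟩
      · simp at h1
      · exact ⟨s, hall s (by simp), j, hj, hx, h1⟩
    · exact hQ e he

/-- check of the last two labels; the table has `s` rows of `w` bits -/
def chkPair (n w s CW CT GT : ℕ) (F : List ℕ) (S : List (ℕ × List ℕ)) : Bool :=
  and (S.all fun e => and (and (Nat.blt e.1 s) (F.all fun c => dj n c (row CT CW e.1)))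
      (e.2.all fun j => and (Nat.blt j s) (and (dj n (row CT CW e.1) (row CT CW j))
        (F.all fun c => dj n c (row CT CW j)))))
    (rowQ w GT S [] fun Q => force (Nat.pred (Nat.pow 2 w)) fun full =>
      allN w fun x => Nat.beq (orGo x Q 0) full)

/-- a partial table: `s` matchings with their masks -/
def poolOK (n w CW CT GT : ℕ) (pms : List ℕ) (i : ℕ) : Bool :=
  force (row CT CW i) fun c => and (okPM n c)
    (Nat.beq (row GT w i) (mask (fun l => ham n l c) pms))

theorem pair_sound {n w s CW CT GT : ℕ} {pms : List ℕ} (hn0 : 0 < n)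
    (hcode : ∀ M : Fin n → Fin n, PM M → ∃ c ∈ pms, Rep n c M) (hlen : pms.length = w)
    (hpool : ∀ i < s, poolOK n w CW CT GT pms i = true)
    {F : List ℕ} {S : List (ℕ × List ℕ)} (hF : ∀ c ∈ F, okPM n c = true)
    (h : chkPair n w s CW CT GT F S = true) : Comp n 2 F := by
  unfold chkPair at h
  rw [Bool.and_eq_true] at h
  obtain ⟨h1, h2⟩ := h
  obtain ⟨Q, hQ, hq⟩ := rowQ_sound w GT (fun b => b = true) S S [] _ (fun s hs => hs)
    (fun e he => by simp at he) h2
  rw [force_eq, allN_iff] at hq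
  have hpool' : ∀ i < s, PM (fn n (row CT CW i)) ∧ Rep n (row CT CW i) (fn n (row CT CW i)) ∧
      ∀ j, (row GT w i).testBit j = true → ∃ h : j < pms.length,
        ham n pms[j] (row CT CW i) = true := by
    intro i hi
    have h3 := hpool i hi
    unfold poolOK at h3
    rw [force_eq, Bool.and_eq_true] at h3
    obtain ⟨h4, h5⟩ := okPM_sound h3.1
    refine ⟨h4, h5, ?_⟩
    intro j hj
    rw [Nat.eq_of_beq_eq_true h3.2] at hj
    exact mask_sound hj
  intro L hL
  obtain ⟨l0, hl0, hr0⟩ := hcode (L 0) (hL 0)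
  obtain ⟨l1, hl1, hr1⟩ := hcode (L 1) (hL 1)
  obtain ⟨j0, hj0, rfl⟩ := List.getElem_of_mem hl0
  obtain ⟨j1, hj1, rfl⟩ := List.getElem_of_mem hl1
  have h6 := Nat.eq_of_beq_eq_true (hq j0 (hlen ▸ hj0))
  have h7 : (orGo j0 Q 0).testBit j1 = true := by
    rw [h6]
    have e : Nat.pred (Nat.pow 2 w) = 2 ^ w - 1 := rfl
    rw [e, Nat.testBit_two_pow_sub_one]
    exact decide_eq_true (hlen ▸ hj1)
  rcases orGo_sound j0 Q 0 j1 h7 with h8 | ⟨e, he, h8, h9⟩
  · simp at h8
  obtain ⟨t, ht, j, hj, h10, h11⟩ := hQ e he j0 j1 h8 h9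
  have h12 := List.all_eq_true.1 h1 t ht
  rw [Bool.and_eq_true, Bool.and_eq_true] at h12
  obtain ⟨⟨h13, h14⟩, h15⟩ := h12
  have h16 := List.all_eq_true.1 h15 j hj
  rw [Bool.and_eq_true, Bool.and_eq_true] at h16
  obtain ⟨h17, h18, h19⟩ := h16
  have hts : t.1 < s := of_decide_eq_true (by rw [← Nat.blt_eq] at *; simpa using h13)
  have hjs : j < s := of_decide_eq_true (by rw [← Nat.blt_eq] at *; simpa using h17)
  obtain ⟨p1, p2, p3⟩ := hpool' t.1 hts
  obtain ⟨q1, q2, q3⟩ := hpool' j hjs
  refine ⟨![fn n (row CT CW t.1), fn n (row CT CW j)], ?_, ?_, ?_, ?_⟩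
  · intro i
    fin_cases i
    · exact p1
    · exact q1
  · intro i i' hii x
    fin_cases i <;> fin_cases i'
    · exact absurd rfl hii
    · exact dj_sound h18 p2 q2 x
    · exact fun h => dj_sound h18 p2 q2 x h.symm
    · exact absurd rfl hii
  · intro i
    fin_cases i
    · exact ham_sound hn0 hr0 p2 (p3 j0 h10).2
    · exact ham_sound hn0 hr1 q2 (q3 j1 h11).2
  · intro i x c hc
    have hcr := (okPM_sound (hF c hc)).2
    fin_cases i
    · intro hx
      apply dj_sound (List.all_eq_true.1 h14 c hc) hcr p2 x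
      apply Fin.ext
      rw [← hcr, hx]
      rfl
    · intro hx
      apply dj_sound (List.all_eq_true.1 h19 c hc) hcr q2 x
      apply Fin.ext
      rw [← hcr, hx]
      rfl

end Pool.Agent.Lib.MP_fe131b_co.F4
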