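import Pool.Agent.Lib.MP_fe131b_co.F4.Eng2

/-!
Twelve points, a forbidden matching between the two halves: every label is completed by a
matching between the halves that avoids the forbidden one.
-/

set_option autoImplicit false

namespace Pool.Agent.Lib.MP_fe131b_co.F4

open Finset Function

/-- all elements of a list -/
def allL {α : Type} (p : α → Bool) (l : List α) : Bool :=
  List.rec (motive := fun _ => Bool) true (fun x _ ih => and (p x) ih) l

theorem allL_iff {α : Type} (p : α → Bool) (l : List α) :
    allL p l = true ↔ ∀ x ∈ l, p x = true := by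
  induction l with
  | nil => simp [allL]
  | cons x l ih =>
    have h : allL p (x :: l) = (p x && allL p l) := rfl
    rw [h, Bool.and_eq_true, ih]
    simp

/-- some element of a list -/
def anyL {α : Type} (p : α → Bool) (l : List α) : Bool :=
  List.rec (motive := fun _ => Bool) false (fun x _ ih => cond (p x) true ih) l

theorem anyL_iff {α : Type} (p : α → Bool) (l : List α) :
    anyL p l = true ↔ ∃ x ∈ l, p x = true := by
  induction l with
  | nil => simp [anyL]
  | cons x l ih =>
    have h : anyL p (x :: l) = cond (p x) true (anyL p l) := rfl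
    rw [h]
    cases hx : p x with
    | true => simp [hx]
    | false =>
      rw [cond_false, ih]
      simp [hx]

/-- remove a number from a list -/
def del (b : ℕ) (l : List ℕ) : List ℕ :=
  List.rec (motive := fun _ => List ℕ) []
    (fun x r ih => cond (Nat.beq x b) r (List.cons x ih)) l

theorem del_eq (b : ℕ) (l : List ℕ) : del b l = l.erase b := by
  induction l with
  | nil => rfl
  | cons x r ih =>
    have h : del b (x :: r) = cond (Nat.beq x b) r (x :: del b r) := rfl
    rw [h, ih, List.erase_cons]
    cases hx : Nat.beq x b with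
    | true =>
      have h1 : x = b := Nat.eq_of_beq_eq_true hx
      rw [h1]
      simp
    | false =>
      have h1 : x ≠ b := Nat.ne_of_beq_eq_false hx
      rw [if_neg (by simpa using h1), cond_false]

/-- a predicate for the codes of all perfect matchings of the points of a list -/
def pmAll (p : ℕ → Bool) (f : ℕ) : List ℕ → ℕ → Bool :=
  Nat.rec (motive := fun _ => List ℕ → ℕ → Bool) (fun _ acc => p acc)
    (fun _ ih l acc => List.rec (motive := fun _ => Bool) (p acc)
      (fun a r _ => allL (fun b =>
        force (Nat.add (Nat.add acc (Nat.mul b (Nat.pow 16 a))) (Nat.mul a (Nat.pow 16 b)))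
          fun acc' => ih (del b r) acc') r) l) f

theorem pmAll_sound (p : ℕ → Bool) : ∀ (f : ℕ) (l : List ℕ) (acc : ℕ),
    pmAll p f l acc = true → ∀ c ∈ pmGen f l acc, p c = true := by
  intro f
  induction f with
  | zero =>
    intro l acc h c hc
    have h1 : c = acc := by simpa [pmGen] using hc
    rw [h1]
    exact h
  | succ f ih =>
    intro l acc h c hc
    cases l with
    | nil =>
      have h1 : c = acc := by simpa [pmGen] using hc
      rw [h1]
      exact h
    | cons a r =>
      have e : pmAll p (f + 1) (a :: r) acc = allL (fun b =>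
        force (acc + b * 16 ^ a + a * 16 ^ b) fun acc' => pmAll p f (del b r) acc') r := rfl
      rw [e, allL_iff] at h
      simp only [pmGen, List.mem_flatMap] at hc
      obtain ⟨b, hb, hc⟩ := hc
      have h2 := h b hb
      rw [force_eq, del_eq] at h2
      exact ih _ _ h2 c hc

/-- the matchings between the halves -/
def X12 : List ℕ := [76016654190951, 36559657728936, 54981293423241, 3389845382811, 17953560487866,
  72915720301191, 58549558949736, 52867365255066, 21029324302776, 36302463986601, 35275447630746,
  72924276689511, 1388658132651, 23240146061751, 36301959625641, 72573462997641, 38779285515111,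
  75879752107881]

/-- a matching between the halves that avoids the matching `x ↦ x + 6` -/
def okX (c : ℕ) : Bool :=
  and (okPM 12 c) (and (allN 12 fun x => Bool.xor (Nat.blt (pt c x) 6) (Nat.blt x 6))
    (allN 6 fun x => not (Nat.beq (pt c x) (Nat.add x 6))))

def chk12 (b : ℕ) : Bool :=
  pmAll (fun l => anyL (fun m => ham 12 l m) X12) 5 (del b (List.range' 1 11)) b

theorem c12_1 : chk12 1 = true := by decide +kernel
theorem c12_2 : chk12 2 = true := by decide +kernel
theorem c12_3 : chk12 3 = true := by decide +kernel
theorem c12_4 : chk12 4 = true := by decide +kernel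
theorem c12_5 : chk12 5 = true := by decide +kernel
theorem c12_6 : chk12 6 = true := by decide +kernel
theorem c12_7 : chk12 7 = true := by decide +kernel
theorem c12_8 : chk12 8 = true := by decide +kernel
theorem c12_9 : chk12 9 = true := by decide +kernel
theorem c12_10 : chk12 10 = true := by decide +kernel
theorem c12_11 : chk12 11 = true := by decide +kernel

theorem okX12 : allL okX X12 = true := by decide +kernel

theorem c12_all : ∀ b ∈ List.range' 1 11, chk12 b = true := by
  intro b hb
  have h1 : 1 ≤ b ∧ b < 12 := by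
    rw [List.mem_range'] at hb
    obtain ⟨i, hi, rfl⟩ := hb
    omega
  obtain ⟨h1, h2⟩ := h1
  interval_cases b
  · exact c12_1
  · exact c12_2
  · exact c12_3
  · exact c12_4
  · exact c12_5
  · exact c12_6
  · exact c12_7
  · exact c12_8
  · exact c12_9
  · exact c12_10
  · exact c12_11

theorem K12 {L : Fin 12 → Fin 12} (hL : PM L) : ∃ M : Fin 12 → Fin 12, PM M ∧
    (∀ x : Fin 12, (M x : ℕ) < 6 ↔ ¬ (x : ℕ) < 6) ∧
    (∀ x : Fin 12, (x : ℕ) < 6 → (M x : ℕ) ≠ x + 6) ∧ Connected L M := by
  obtain ⟨c, hc, hr⟩ := exists_code (by norm_num) (by norm_num) hL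
  have hc' : ∃ b ∈ List.range' 1 11, c ∈ pmGen 5 (del b (List.range' 1 11)) b := by
    have e : List.range 12 = 0 :: List.range' 1 11 := by decide
    have e2 : (12 / 2 : ℕ) = 5 + 1 := rfl
    rw [e2, e] at hc
    simp only [pmGen, List.mem_flatMap] at hc
    obtain ⟨b, hb, hc⟩ := hc
    refine ⟨b, hb, ?_⟩
    rw [del_eq]
    simpa using hc
  obtain ⟨b, hb, hcb⟩ := hc'
  have h1 := pmAll_sound _ _ _ _ (c12_all b hb) c hcb
  rw [anyL_iff] at h1
  obtain ⟨m, hm, hham⟩ := h1
  have h2 := (allL_iff _ _).1 okX12 m hm
  unfold okX at h2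
  rw [Bool.and_eq_true, Bool.and_eq_true, allN_iff, allN_iff] at h2
  obtain ⟨h2, h3, h3'⟩ := h2
  obtain ⟨h4, h5⟩ := okPM_sound h2
  have hb1 : ∀ y : ℕ, Nat.blt y 6 = decide (y < 6) := by
    intro y
    rw [Bool.eq_iff_iff, decide_eq_true_iff, Nat.blt_eq]
  refine ⟨fn 12 m, h4, ?_, ?_, ham_sound (by norm_num) hr h5 hham⟩
  · intro x
    have h6 := h3 x x.2
    rw [← h5 x]
    rw [hb1, hb1] at h6
    by_cases g1 : pt m x < 6 <;> by_cases g2 : (x : ℕ) < 6 <;> simp [g1, g2] at h6 ⊢
  · intro x hx h7
    have h8 := h3' x hx
    rw [← h5 x] at h7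
    have h9 : Nat.beq (pt m x) (Nat.add x 6) = true := by rw [Nat.beq_eq]; exact h7
    rw [h9] at h8
    simp at h8

end Pool.Agent.Lib.MP_fe131b_co.F4
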