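import Pool.Agent.Lib.MP_fe131b_co.F4.D10

/-!
Ten points: kernel checks.
-/

set_option autoImplicit false

namespace Pool.Agent.Lib.MP_fe131b_co.F4

open Finset Function

theorem gen10 : pmGen (10 / 2) (List.range 10) 0 = pms10 := by decide +kernel

theorem len10 : pms10.length = 945 := by decide +kernel

theorem code10 : ∀ M : Fin 10 → Fin 10, PM M → ∃ c ∈ pms10, Rep 10 c M := by
  intro M hM
  have := exists_code (n := 10) (by norm_num) (by norm_num) hM
  rw [gen10] at this
  exact this

theorem a10_0 : (pms10.all fun l => C0.any fun e => ham 10 l e.m) = true := by decide +kernel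

theorem a10_1 : (pms10.all fun l => C1.any fun e => ham 10 l e.m) = true := by decide +kernel

theorem a10_2 : (pms10.all fun l => C2.any fun e => ham 10 l e.m) = true := by decide +kernel

/-- the candidates of the fourth step -/
def C3 : List Cand := [m10_0, m10_1, m10_2, m10_3, m10_4, m10_5, m10_6, m10_7, m10_8].map
  fun m => ⟨m, 0x9876543210⟩

theorem a10_3 : (pms10.all fun l => C3.any fun e => ham 10 l e.m) = true := by decide +kernel

theorem pool10_0 : (allN 7 fun k => poolOK 10 945 40 CT10 GT10 pms10 (Nat.add 0 k)) = true := by
  decide +kernel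

end Pool.Agent.Lib.MP_fe131b_co.F4
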