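import Pool.Agent.Lib.MP_fe131b_co.F4.D8

/-!
Eight points: kernel checks.
-/

set_option autoImplicit false

namespace Pool.Agent.Lib.MP_fe131b_co.F4

open Finset Function

theorem gen8 : pmGen (8 / 2) (List.range 8) 0 = pms8 := by decide +kernel

theorem tabGo8 : tabGo 8 105 32 CT8 GT8 pms8 pms8 0 = true := by decide +kernel

theorem tab8 : Tab 8 105 32 CT8 GT8 :=
  tab_of (by norm_num) (by norm_num) (by norm_num) (by decide +kernel) gen8 tabGo8

theorem rel80 : and (Nat.beq P80.length 105) (and (P80.all fun e => Nat.beq e.2 0)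
    (relGo 8 105 32 CT8 [] P80 0)) = true := by decide +kernel

theorem rel81 : and (Nat.beq P81.length 105) (and (P81.all fun e => P82.any fun f =>
    Nat.beq f.1 e.2) (relGo 8 105 32 CT8 [0] P81 0)) = true := by decide +kernel

theorem rel82 : (P82.all fun f => and (and (Nat.blt f.1 105) (Nat.beq f.2.length 105))
    (and (f.2.all fun e => K8.any fun k => and (Nat.beq k.1 f.1) (Nat.beq k.2.1 e.2))
      (relGo 8 105 32 CT8 [0, f.1] f.2 0))) = true := by decide +kernel

/-- the check of one case -/
def cc8 (k : ℕ × ℕ × List (List ℕ)) : Bool := chkCase 8 105 32 CT8 GT8 [0, k.1, k.2.1] k.2.2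

theorem c8_0 : K8_0.all cc8 = true := by decide +kernel
theorem c8_1 : K8_1.all cc8 = true := by decide +kernel
theorem c8_2 : K8_2.all cc8 = true := by decide +kernel

end Pool.Agent.Lib.MP_fe131b_co.F4
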